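import Pool.Agent.P.MP_029dcd_co.F.LayE

/-! Layer U, part 1: canonical labels, cones, consequences of quasi-symmetry. -/

set_option autoImplicit false

namespace ECub

open CubicStab MeasureTheory Filter Topology Finset
open scoped ENNReal

/-- the slope conditions on `Λ` -/
def LamOK (Λ : (ℝ × ℝ) ≃L[ℝ] (ℝ × ℝ)) : Prop :=
  ((Λ (1, 0)).1 < 0 ∧ |(Λ (1, 0)).2 + (Λ (1, 0)).1| ≤ 1 / 100 * |(Λ (1, 0)).1|) ∧
  (0 < (Λ (0, 1)).1 ∧ |(Λ (0, 1)).2 - (Λ (0, 1)).1| ≤ 1 / 100 * |(Λ (0, 1)).1|)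

theorem Sys.Lin.ok {S : Sys} {Λ : (ℝ × ℝ) ≃L[ℝ] (ℝ × ℝ)} (h : S.Lin Λ) : LamOK Λ := ⟨h.e1, h.e2⟩

namespace Gal

variable {G : Gal} {k : ℕ} {C : ℝ}

theorem at'_spec (hG : G.Ax k C) {l : Lb} (hl : G.valid l) (b : ℤ) :
    G.Can (G.fam l) (G.at' l b) ∧ G.same l (G.at' l b) = true ∧
      idx (G.fam l) (G.at' l b).1 = b := by
  have h : ∃ l', G.valid l ∧ G.Can (G.fam l) l' ∧ G.same l l' = true ∧
      idx (G.fam l) l'.1 = b := by
    obtain ⟨l', h⟩ := hG.can_ex l hl b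
    exact ⟨l', hl, h⟩
  unfold at'
  rw [dif_pos h]
  exact h.choose_spec.2

end Gal

namespace U

variable {G : Gal} {k : ℕ} {C : ℝ}

theorem at'_eq (hG : G.Ax k C) {l l' : Lb} (hl : G.valid l) {b : ℤ} (h1 : G.Can (G.fam l) l')
    (h2 : G.same l l' = true) (h3 : idx (G.fam l) l'.1 = b) : G.at' l b = l' := by
  obtain ⟨a1, a2, a3⟩ := Gal.at'_spec hG hl b
  exact hG.can_uniq _ _ _ a1 h1
    (hG.same_trans _ _ _ a1.1 hl h1.1 (hG.same_symm _ _ hl a1.1 a2) h2) (a3.trans h3.symm)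

theorem at'_invalid {l : Lb} (hl : ¬ G.valid l) (b : ℤ) : G.at' l b = l := by
  unfold Gal.at'
  rw [dif_neg]
  rintro ⟨_, h, -⟩
  exact hl h

end U

namespace Gal

variable {G : Gal} {k : ℕ} {C : ℝ}

theorem at'_congr (hG : G.Ax k C) {l l' : Lb} (hl : G.valid l) (hl' : G.valid l')
    (h : G.same l l' = true) (b : ℤ) : G.at' l b = G.at' l' b := by
  obtain ⟨a1, a2, a3⟩ := at'_spec hG hl' b
  have hf := hG.same_fam l l' hl hl' h
  exact U.at'_eq hG hl (hf ▸ a1) (hG.same_trans _ _ _ hl hl' a1.1 h a2) (hf ▸ a3)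

theorem at'_self (hG : G.Ax k C) {i : Fin 3} {l : Lb} (hl : G.Can i l) :
    G.at' l (idx i l.1) = l :=
  U.at'_eq hG hl.1 (hl.2.1 ▸ hl) (hG.same_refl l hl.1) (by rw [hl.2.1])

theorem rep_eq_iff (hG : G.Ax k C) {l l' : Lb} (hl : G.valid l) (hl' : G.valid l') :
    G.rep l = G.rep l' ↔ G.same l l' = true := by
  refine ⟨fun h => ?_, fun h => at'_congr hG hl hl' h 0⟩
  obtain ⟨a1, a2, -⟩ := at'_spec hG hl 0
  obtain ⟨b1, b2, -⟩ := at'_spec hG hl' 0
  have h' : G.at' l 0 = G.at' l' 0 := h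
  rw [h'] at a2
  exact hG.same_trans _ _ _ hl b1.1 hl' a2 (hG.same_symm _ _ hl' b1.1 b2)

end Gal

namespace U

variable {G : Gal} {k : ℕ} {C : ℝ}

theorem mem_box {y w : Z2} {u : ℕ} :
    w ∈ box y u ↔ (y.1 - u ≤ w.1 ∧ w.1 ≤ y.1 + u) ∧ (y.2 - u ≤ w.2 ∧ w.2 ≤ y.2 + u) := by
  simp only [box, mem_product, mem_Icc]

theorem mem_box0 {w : Z2} {u : ℕ} : w ∈ box 0 u ↔ |w.1| ≤ u ∧ |w.2| ≤ u := by
  simp only [mem_box, Prod.fst_zero, Prod.snd_zero, zero_sub, zero_add, abs_le]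

theorem cone1 (hG : G.Ax k C) {a a' : ℤ} (h : a ≤ a') (b : ℤ) :
    99 / 100 * ((G.v (a, b)).1 - (G.v (a', b)).1) ≤ (G.v (a', b)).2 - (G.v (a, b)).2 ∧
      (G.v (a', b)).2 - (G.v (a, b)).2 ≤ 101 / 100 * ((G.v (a, b)).1 - (G.v (a', b)).1) := by
  induction a', h using Int.leInduction with
  | base => simp
  | succ n _ ih =>
    have h1 := abs_le.1 (hG.cone1 (n, b))
    simp only [Prod.mk_add_mk, add_zero] at h1
    constructor <;> linarith [h1.1, h1.2, ih.1, ih.2]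

theorem cone2 (hG : G.Ax k C) (a : ℤ) {b b' : ℤ} (h : b ≤ b') :
    99 / 100 * ((G.v (a, b')).1 - (G.v (a, b)).1) ≤ (G.v (a, b')).2 - (G.v (a, b)).2 ∧
      (G.v (a, b')).2 - (G.v (a, b)).2 ≤ 101 / 100 * ((G.v (a, b')).1 - (G.v (a, b)).1) := by
  induction b', h using Int.leInduction with
  | base => simp
  | succ n _ ih =>
    have h1 := abs_le.1 (hG.cone2 (a, n))
    simp only [Prod.mk_add_mk, add_zero] at h1
    constructor <;> linarith [h1.1, h1.2, ih.1, ih.2]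

theorem norm_le_Y (hG : G.Ax k C) {w w' : Z2} (h1 : w.1 ≤ w'.1) (h2 : w.2 ≤ w'.2) :
    ‖G.v w' - G.v w‖ ≤ 2 * ((G.v w').2 - (G.v w).2) := by
  obtain ⟨a, b⟩ := w
  obtain ⟨a', b'⟩ := w'
  have c1 := cone1 hG h1 b
  have c2 := cone2 hG a' h2
  simp only at c1 c2 h1 h2
  rw [Prod.norm_def, max_le_iff, Prod.fst_sub, Prod.snd_sub, Real.norm_eq_abs, Real.norm_eq_abs,
    abs_le, abs_le]
  refine ⟨⟨?_, ?_⟩, ?_, ?_⟩ <;> linarith [c1.1, c1.2, c2.1, c2.2]

theorem Y_mono (hG : G.Ax k C) {w w' : Z2} (h1 : w.1 ≤ w'.1) (h2 : w.2 ≤ w'.2) :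
    (G.v w).2 ≤ (G.v w').2 := by
  have := (norm_nonneg _).trans (norm_le_Y hG h1 h2)
  linarith

theorem cs_nonneg (hG : G.Ax k C) (w : Z2) : 0 ≤ G.cs w :=
  sub_nonneg.2 (Y_mono hG (by simp) (by simp))

/-- the height of the box of radius `n` around `y` -/
def D (G : Gal) (y : Z2) (n : ℕ) : ℝ :=
  (G.v (y.1 + n, y.2 + n)).2 - (G.v (y.1 - n, y.2 - n)).2

theorem D_zero (u : ℕ) : D G 0 u = G.R u := by simp [D, Gal.R]

theorem D_nonneg (hG : G.Ax k C) (y : Z2) (n : ℕ) : 0 ≤ D G y n :=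
  sub_nonneg.2 (Y_mono hG (by simp only; omega) (by simp only; omega))

theorem D_mono (hG : G.Ax k C) {y y' : Z2} {n n' : ℕ} (h1 : |y.1 - y'.1| + n ≤ n')
    (h2 : |y.2 - y'.2| + n ≤ n') : D G y n ≤ D G y' n' := by
  have a1 := le_abs_self (y.1 - y'.1)
  have a2 := neg_abs_le (y.1 - y'.1)
  have a3 := le_abs_self (y.2 - y'.2)
  have a4 := neg_abs_le (y.2 - y'.2)
  have b1 := Y_mono hG (w := (y.1 + n, y.2 + n)) (w' := (y'.1 + n', y'.2 + n'))
    (by simp only; omega) (by simp only; omega)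
  have b2 := Y_mono hG (w := (y'.1 - n', y'.2 - n')) (w' := (y.1 - n, y.2 - n))
    (by simp only; omega) (by simp only; omega)
  unfold D
  linarith

theorem diam_le (hG : G.Ax k C) {y w w' : Z2} {n : ℕ} (hw : w ∈ box y n) (hw' : w' ∈ box y n) :
    ‖G.v w - G.v w'‖ ≤ 4 * D G y n := by
  rw [mem_box] at hw hw'
  have a1 := norm_le_Y hG (w := (y.1 - n, y.2 - n)) (w' := w) hw.1.1 hw.2.1
  have a2 := norm_le_Y hG (w := (y.1 - n, y.2 - n)) (w' := w') hw'.1.1 hw'.2.1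
  have b1 := Y_mono hG (w := w) (w' := (y.1 + n, y.2 + n)) hw.1.2 hw.2.2
  have b2 := Y_mono hG (w := w') (w' := (y.1 + n, y.2 + n)) hw'.1.2 hw'.2.2
  have c := norm_sub_le (G.v w - G.v (y.1 - n, y.2 - n)) (G.v w' - G.v (y.1 - n, y.2 - n))
  rw [sub_sub_sub_cancel_right] at c
  unfold D
  linarith

theorem norm_v_le (hG : G.Ax k C) {w : Z2} {n : ℕ} (hw : w ∈ box 0 n) : ‖G.v w‖ ≤ 4 * G.R n := by
  have := diam_le hG hw (w' := 0) (by simp [mem_box0])
  rwa [hG.v_zero, sub_zero, D_zero] at this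

theorem R_nonneg (hG : G.Ax k C) (n : ℕ) : 0 ≤ G.R n := D_zero (G := G) n ▸ D_nonneg hG 0 n

theorem R_mono (hG : G.Ax k C) : Monotone G.R := fun a b h => by
  rw [← D_zero, ← D_zero]
  exact D_mono hG (by simpa using h) (by simpa using h)

theorem R_pos (hG : G.Ax k C) : ∀ᶠ u : ℕ in atTop, 0 < G.R u := by
  obtain ⟨w, hw⟩ := hG.nondeg
  filter_upwards [eventually_ge_atTop (max w.1.natAbs w.2.natAbs)] with u hu
  have h1 : w ∈ box 0 u := by
    rw [mem_box0, Int.abs_eq_natAbs, Int.abs_eq_natAbs]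
    omega
  have := norm_v_le hG h1
  have := norm_pos_iff.2 hw
  linarith

theorem snd_le_norm (p : ℝ × ℝ) : p.2 ≤ ‖p‖ := (le_abs_self _).trans (norm_snd_le p)

theorem qs_apply {y : Z2} {n : ℕ} (h : G.QS y n C) {w1 w2 : Z2} (h1 : w1 ∈ box y (3 * n))
    (h2 : w2 ∈ box y (3 * n)) (hn : (n : ℤ) ≤ max |w1.1 - w2.1| |w1.2 - w2.2|) {m : ℕ}
    (hm : m ≤ 3 * n) : D G y m ≤ max C 1 * ‖G.v w1 - G.v w2‖ := by
  have h3 := h w1 h1 w2 h2 (y.1 + m, y.2 + m) (by rw [mem_box]; simp only; omega)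
    (y.1 - m, y.2 - m) (by rw [mem_box]; simp only; omega) hn
  have h4 := snd_le_norm (G.v (y.1 + m, y.2 + m) - G.v (y.1 - m, y.2 - m))
  exact h4.trans (h3.trans (mul_le_mul_of_nonneg_right (le_max_left _ _) (norm_nonneg _)))

theorem D_dbl (hG : G.Ax k C) {y : Z2} {n : ℕ} (h : G.QS y n C) :
    D G y (3 * n) ≤ 2 * max C 1 * D G y n := by
  have h1 := qs_apply h (w1 := (y.1 + n, y.2 + n)) (w2 := (y.1 - n, y.2 - n))
    (by rw [mem_box]; simp only; omega) (by rw [mem_box]; simp only; omega)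
    (le_max_of_le_left (le_trans (by simp only; omega) (le_abs_self _))) le_rfl
  have h2 := norm_le_Y hG (w := (y.1 - n, y.2 - n)) (w' := (y.1 + n, y.2 + n))
    (by simp only; omega) (by simp only; omega)
  have h3 := mul_le_mul_of_nonneg_left h2 (zero_le_one.trans (le_max_right C 1))
  unfold D at h1 ⊢
  linarith

/-- the contraction factor -/
noncomputable def lam (C : ℝ) : ℝ := 2 * max C 1 / (1 + 2 * max C 1)

theorem lam_pos (C : ℝ) : 0 < lam C := by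
  have := le_max_right C 1
  unfold lam
  positivity

theorem lam_lt (C : ℝ) : lam C < 1 := by
  have := le_max_right C 1
  unfold lam
  rw [div_lt_one (by positivity)]
  linarith

theorem D_ctr (hG : G.Ax k C) {y : Z2} {n : ℕ} (h : G.QS y n C) :
    D G y n ≤ lam C * D G y (3 * n) := by
  have h1 := qs_apply h (w1 := (y.1 + (3 * n : ℕ), y.2 + (3 * n : ℕ))) (w2 := (y.1 + n, y.2 + n))
    (by rw [mem_box]; simp only; omega) (by rw [mem_box]; simp only; omega)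
    (le_max_of_le_left (le_trans (by simp only; omega) (le_abs_self _))) (m := n) (by omega)
  have h2 := norm_le_Y hG (w := (y.1 + n, y.2 + n)) (w' := (y.1 + (3 * n : ℕ), y.2 + (3 * n : ℕ)))
    (by simp only; omega) (by simp only; omega)
  have h3 := mul_le_mul_of_nonneg_left h2 (zero_le_one.trans (le_max_right C 1))
  have h4 := Y_mono hG (w := (y.1 - (3 * n : ℕ), y.2 - (3 * n : ℕ))) (w' := (y.1 - n, y.2 - n))
    (by simp only; omega) (by simp only; omega)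
  have h5 := le_max_right C 1
  have h6 : (G.v (y.1 + (3 * n : ℕ), y.2 + (3 * n : ℕ))).2 - (G.v (y.1 + n, y.2 + n)).2 ≤
      D G y (3 * n) - D G y n := by
    unfold D
    linarith
  have h7 := mul_le_mul_of_nonneg_left h6 (zero_le_one.trans h5)
  unfold lam
  rw [div_mul_eq_mul_div, le_div_iff₀ (by positivity)]
  nlinarith

theorem D_ctr_pow (hG : G.Ax k C) {y : Z2} {n : ℕ} (j : ℕ)
    (h : ∀ i < j, G.QS y (3 ^ i * n) C) : D G y n ≤ lam C ^ j * D G y (3 ^ j * n) := by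
  induction j with
  | zero => simp
  | succ j ih =>
    have h1 := ih fun i hi => h i (by omega)
    have h2 := D_ctr hG (h j (by omega))
    have h3 := mul_le_mul_of_nonneg_left h2 (pow_nonneg (lam_pos C).le j)
    rw [show 3 ^ (j + 1) * n = 3 * (3 ^ j * n) by ring, pow_succ, mul_assoc]
    exact h1.trans h3

theorem qs0 (hG : G.Ax k C) : ∀ᶠ n : ℕ in atTop, G.QS 0 n C := by
  filter_upwards [hG.qs 1 1 one_pos] with n hn
  exact hn 0 (by simp [mem_box0]) n (by simp) (by simp)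

theorem R_le (hG : G.Ax k C) (A : ℕ) :
    ∃ K : ℝ, 0 < K ∧ ∀ᶠ u : ℕ in atTop, G.R (A * u) ≤ K * G.R u := by
  obtain ⟨n0, hn0⟩ := eventually_atTop.1 (qs0 hG)
  have hc : 0 < 2 * max C 1 := by
    have := le_max_right C 1
    positivity
  have key : ∀ j u : ℕ, n0 ≤ u → G.R (3 ^ j * u) ≤ (2 * max C 1) ^ j * G.R u := by
    intro j u hu
    induction j with
    | zero => simp
    | succ j ih =>
      have h1 := D_dbl hG (hn0 (3 ^ j * u) (hu.trans (Nat.le_mul_of_pos_left u (by positivity))))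
      rw [D_zero, D_zero] at h1
      rw [show 3 ^ (j + 1) * u = 3 * (3 ^ j * u) by ring, pow_succ', mul_assoc]
      exact h1.trans (mul_le_mul_of_nonneg_left ih hc.le)
  refine ⟨(2 * max C 1) ^ A, pow_pos hc A, ?_⟩
  filter_upwards [eventually_ge_atTop n0] with u hu
  exact (R_mono hG (Nat.mul_le_mul_right u (Nat.lt_pow_self (by norm_num)).le)).trans (key A u hu)

theorem R_atTop (hG : G.Ax k C) : Tendsto G.R atTop atTop := by
  obtain ⟨n0, hn0⟩ := eventually_atTop.1 ((qs0 hG).and (R_pos hG))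
  refine tendsto_atTop_atTop_of_monotone (R_mono hG) fun b => ?_
  have hp := (hn0 n0 le_rfl).2
  obtain ⟨j, hj⟩ := exists_pow_lt_of_lt_one (div_pos hp (lt_max_of_lt_right one_pos : 0 < max b 1))
    (lam_lt C)
  refine ⟨3 ^ j * n0, ?_⟩
  have h1 := D_ctr_pow hG (y := 0) (n := n0) j fun i _ =>
    (hn0 _ (Nat.le_mul_of_pos_left n0 (by positivity))).1
  rw [D_zero, D_zero] at h1
  by_contra hb
  have h2 : G.R (3 ^ j * n0) ≤ max b 1 := (not_le.1 hb).le.trans (le_max_left _ _)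
  have h3 := mul_le_mul_of_nonneg_left h2 (pow_nonneg (lam_pos C).le j)
  rw [lt_div_iff₀ (lt_max_of_lt_right one_pos)] at hj
  linarith

/-- separation from the origin -/
theorem sep0 (hG : G.Ax k C) (m : ℕ) : ∃ K : ℝ, 0 < K ∧ ∀ᶠ u : ℕ in atTop, ∀ w : Z2,
    (u : ℤ) ≤ m * max |w.1| |w.2| → G.R u ≤ K * ‖G.v w‖ := by
  obtain ⟨K, hK, h1⟩ := R_le hG m
  obtain ⟨n0, hn0⟩ := eventually_atTop.1 (h1.and (qs0 hG))
  have hc := le_max_right C 1
  refine ⟨K * max C 1, by positivity, ?_⟩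
  filter_upwards [eventually_ge_atTop (m * n0 + 1)] with u hu w hw
  obtain ⟨n, hn⟩ : ∃ n : ℕ, (n : ℤ) = max |w.1| |w.2| :=
    ⟨_, Int.toNat_of_nonneg (le_max_of_le_left (abs_nonneg _))⟩
  rw [← hn] at hw
  have hw' : u ≤ m * n := by exact_mod_cast hw
  have hn1 : n0 ≤ n := by
    by_contra hh
    have := Nat.mul_le_mul_left m (not_le.1 hh).le
    omega
  have a1 := le_max_left |w.1| |w.2|
  have a2 := le_max_right |w.1| |w.2|
  have h2 := qs_apply (hn0 n hn1).2 (w1 := w) (w2 := 0) (by rw [mem_box0]; omega)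
    (by simp [mem_box0]) (by simp [hn]) (m := n) (by omega)
  rw [D_zero, hG.v_zero, sub_zero] at h2
  calc G.R u ≤ G.R (m * n) := R_mono hG hw'
    _ ≤ K * G.R n := (hn0 n hn1).1
    _ ≤ K * (max C 1 * ‖G.v w‖) := mul_le_mul_of_nonneg_left h2 hK.le
    _ = _ := by ring

/-- equicontinuity -/
theorem equi (hG : G.Ax k C) (A : ℕ) {δ : ℝ} (hδ : 0 < δ) : ∃ e : ℝ, 0 < e ∧
    ∀ᶠ u : ℕ in atTop, ∀ w ∈ box 0 (A * u), ∀ w' : Z2, |((w'.1 : ℝ) - w.1)| ≤ e * u →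
      |((w'.2 : ℝ) - w.2)| ≤ e * u → ‖G.v w' - G.v w‖ ≤ δ * G.R u := by
  obtain ⟨K, hK, h1⟩ := R_le hG (A + 1)
  obtain ⟨j, hj⟩ := exists_pow_lt_of_lt_one (div_pos hδ (by positivity : 0 < 4 * K)) (lam_lt C)
  have h3 : (0 : ℝ) < 3 ^ j := by positivity
  refine ⟨1 / (2 * 3 ^ j), by positivity, ?_⟩
  filter_upwards [h1, hG.qs (A + 1) (1 / (2 * 3 ^ j)) (by positivity),
    eventually_ge_atTop (2 * 3 ^ j)] with u hu hq hu' w hw w' d1 d2
  obtain ⟨n, hn⟩ : ∃ n, n = u / 3 ^ j := ⟨_, rfl⟩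
  have n1 : 3 ^ j * n ≤ u := hn ▸ Nat.mul_div_le u _
  have n2 : 1 / (2 * 3 ^ j) * (u : ℝ) ≤ n := by
    have a1 : u < 3 ^ j * n + 3 ^ j := by
      have := Nat.lt_mul_div_succ u (show 0 < 3 ^ j by positivity)
      rw [mul_add, mul_one, ← hn] at this
      exact this
    have a2 : (u : ℝ) ≤ 3 ^ j * n + 3 ^ j := by exact_mod_cast a1.le
    have a3 : (2 * 3 ^ j : ℝ) ≤ u := by exact_mod_cast hu'
    rw [div_mul_eq_mul_div, one_mul, div_le_iff₀ (by positivity)]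
    nlinarith
  have hw0 := mem_box0.1 hw
  push_cast at hw0
  have hAu : u ≤ (A + 1) * u := Nat.le_mul_of_pos_left u (by omega)
  have hw1 : w ∈ box 0 ((A + 1) * u) := by
    rw [mem_box0]
    push_cast
    constructor <;> nlinarith [hw0.1, hw0.2]
  have c1 := D_ctr_pow hG (y := w) (n := n) j fun i hi => by
    have b1 : n ≤ 3 ^ i * n := Nat.le_mul_of_pos_left n (by positivity)
    have b2 : 3 ^ i * n ≤ 3 ^ j * n := Nat.mul_le_mul_right n (Nat.pow_le_pow_right (by norm_num) hi.le)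
    exact hq w hw1 _ (n2.trans (by exact_mod_cast b1)) (by omega)
  have n1' : ((3 ^ j * n : ℕ) : ℤ) ≤ u := by exact_mod_cast n1
  have c2 : D G w (3 ^ j * n) ≤ D G 0 ((A + 1) * u) :=
    D_mono hG (by push_cast at n1' ⊢; simp only [Prod.fst_zero, sub_zero]; linarith [hw0.1])
      (by push_cast at n1' ⊢; simp only [Prod.snd_zero, sub_zero]; linarith [hw0.2])
  rw [D_zero] at c2
  have e1 : |w'.1 - w.1| ≤ n := by exact_mod_cast d1.trans n2
  have e2 : |w'.2 - w.2| ≤ n := by exact_mod_cast d2.trans n2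
  clear hn
  have c3 := diam_le hG (y := w) (n := n) (w := w') (w' := w)
    (by rw [mem_box]; rw [abs_le] at e1 e2; omega) (by rw [mem_box]; omega)
  have c4 := mul_le_mul_of_nonneg_left (c2.trans hu) (pow_nonneg (lam_pos C).le j)
  rw [lt_div_iff₀ (by positivity)] at hj
  have c5 := mul_le_mul_of_nonneg_right hj.le (R_nonneg hG u)
  nlinarith

end U

end ECub
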