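import Pool.Agent.P.MP_029dcd_co.F.U.Loc

/-! Layer U, part 3: shifts, measurability and counting of labels. -/

set_option autoImplicit false

namespace ECub

open CubicStab MeasureTheory Filter Topology Finset
open scoped ENNReal

namespace U

section Shift

variable {G G' : Gal} {k k' : ℕ} {C C' : ℝ} {w : Z2}

theorem idx_add (i : Fin 3) (a b : Z2) : idx i (a + b) = idx i a + idx i b := by
  unfold idx
  split_ifs <;> rfl

theorem oth_add (i : Fin 3) (a b : Z2) : oth i (a + b) = oth i a + oth i b := by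
  unfold oth
  split_ifs <;> rfl

theorem idx_zero (i : Fin 3) : idx i 0 = 0 := by
  unfold idx
  split_ifs <;> rfl

theorem oth_zero (i : Fin 3) : oth i 0 = 0 := by
  unfold oth
  split_ifs <;> rfl

theorem valid_shift (h : G.Shift G' w) (x : Z2) (j : ℕ) :
    G'.valid (x, j) ↔ G.valid (w + x, j) := by
  unfold Gal.valid
  rw [h.g]

theorem can_shift (h : G.Shift G' w) (i : Fin 3) (x : Z2) (j : ℕ) :
    G'.Can i (x, j) ↔ G.Can i (w + x, j) := by
  unfold Gal.Can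
  rw [valid_shift h, h.fam, h.can]

theorem can_shift0 (h : G.Shift G' w) (i : Fin 3) (j : ℕ) : G'.Can i (0, j) ↔ G.Can i (w, j) := by
  rw [can_shift h, add_zero]

theorem at'_shift (hG : G.Ax k C) (hG' : G'.Ax k' C') (h : G.Shift G' w) {i : Fin 3} {j : ℕ}
    (hl : G.Can i (w, j)) (b : ℤ) :
    G.at' (w, j) (idx i w + b) = (w + (G'.at' (0, j) b).1, (G'.at' (0, j) b).2) := by
  have hl' := (can_shift0 h i j).2 hl
  obtain ⟨a1, a2, a3⟩ := Gal.at'_spec hG' hl'.1 b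
  rw [hl'.2.1] at a1 a3
  refine at'_eq hG hl.1 ?_ ?_ ?_
  · rw [hl.2.1]
    exact (can_shift h i _ _).1 a1
  · have := h.same 0 j (G'.at' (0, j) b).1 (G'.at' (0, j) b).2
    rw [add_zero] at this
    exact this.symm.trans a2
  · rw [hl.2.1, idx_add, a3]

theorem multLE_shift (h : G.Shift G' w) {j M : ℕ} (hl : G.valid (w, j))
    (hM : G'.MultLE (0, j) M) : G.MultLE (w, j) M := by
  intro S h1 h2
  obtain ⟨c, -, -, hs⟩ := h.geo
  have hinj : Function.Injective fun l : Lb => ((l.1 - w, l.2) : Lb) := by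
    intro a b hab
    rw [Prod.ext_iff] at hab ⊢
    exact ⟨sub_left_injective hab.1, hab.2⟩
  rw [← card_image_of_injective S hinj]
  refine hM _ (fun l' hl' => ?_) fun a ha b hb hab => ?_
  · obtain ⟨l, hlS, rfl⟩ := mem_image.1 hl'
    obtain ⟨a1, a2, a3, a4⟩ := h1 l hlS
    have e : w + (l.1 - w) = l.1 := by abel
    refine ⟨(valid_shift h _ _).2 (by rwa [e]), ?_, ?_, ?_⟩
    · rw [h.fam, h.fam, e, add_zero]
      exact a2
    · rw [h.t, h.t, e, add_zero]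
      exact a3
    · rw [hs _ _ (by rwa [e]), hs 0 j (by rwa [add_zero]), e, add_zero, ← a3, ← a4]
  · obtain ⟨l, hlS, rfl⟩ := mem_image.1 ha
    obtain ⟨l', hlS', rfl⟩ := mem_image.1 hb
    rw [h.same, add_sub_cancel, add_sub_cancel] at hab
    rw [h2 l hlS l' hlS' hab]

theorem card_lines (hG : G.Ax k C) {i : Fin 3} {L : Finset Lb} (hL : ∀ l ∈ L, G.Ln i l) (u : ℕ) :
    ((L ×ˢ range u).image fun p => G.at' p.1 (p.2 : ℤ)).card = L.card * u := by
  rw [card_image_of_injOn, card_product, card_range]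
  intro p hp q hq hpq
  have h1 := hL _ (mem_product.1 hp).1
  have h2 := hL _ (mem_product.1 hq).1
  obtain ⟨a1, a2, a3⟩ := Gal.at'_spec hG h1.1.1 (p.2 : ℤ)
  obtain ⟨b1, b2, b3⟩ := Gal.at'_spec hG h2.1.1 (q.2 : ℤ)
  have hpq' : G.at' p.1 (p.2 : ℤ) = G.at' q.1 (q.2 : ℤ) := hpq
  rw [h1.1.2.1, hpq'] at a3
  rw [h2.1.2.1] at b3
  rw [hpq'] at a2
  refine Prod.ext (hG.can_uniq i _ _ h1.1 h2.1 ?_ (h1.2.trans h2.2.symm)) ?_
  · exact hG.same_trans _ _ _ h1.1.1 b1.1 h2.1.1 a2 (hG.same_symm _ _ h2.1.1 b1.1 b2)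
  · exact_mod_cast a3.symm.trans b3

end Shift

section Meas

variable (S : Sys)

theorem ev_T {β : Type*} (F : S.Ω × ℕ → β) (ω : S.Ω) (w : Z2) (l : Lb) :
    S.ev F (S.T w ω) l = S.ev F ω (w + l.1, l.2) := by
  unfold Sys.ev
  rw [add_comm, S.T_add]

theorem meas_eq {Ω β : Type*} [MeasurableSpace Ω] [MeasurableSpace β] [Countable β]
    [MeasurableSingletonClass β] {f g : Ω → β} (hf : Measurable f) (hg : Measurable g) :
    Measurable fun ω => f ω = g ω :=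
  (measurable_of_countable fun p : β × β => p.1 = p.2).comp (hf.prodMk hg)

theorem meas_valid (l : Lb) : Measurable fun ω => (S.Γ ω).valid l :=
  (measurable_of_countable fun n : ℕ => l.2 < n).comp (S.meas.g l.1)

theorem meas_can (i : Fin 3) (l : Lb) : Measurable fun ω => (S.Γ ω).Can i l :=
  (meas_valid S l).and ((meas_eq (S.meas.fam l) measurable_const).and
    (meas_eq (S.meas.can l) measurable_const))

theorem meas_at' (l : Lb) (b : ℤ) : Measurable fun ω => (S.Γ ω).at' l b := by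
  refine measurable_to_countable' fun l' => ?_
  have he : (fun ω => (S.Γ ω).at' l b) ⁻¹' {l'} = {ω | (∃ i, (S.Γ ω).valid l ∧
      (S.Γ ω).fam l = i ∧ (S.Γ ω).Can i l' ∧ (S.Γ ω).same l l' = true ∧ idx i l'.1 = b) ∨
      (¬ (S.Γ ω).valid l ∧ l = l')} := by
    ext ω
    simp only [Set.mem_preimage, Set.mem_singleton_iff, Set.mem_ofPred_eq]
    by_cases hv : (S.Γ ω).valid l
    · constructor
      · rintro rfl
        exact Or.inl ⟨_, hv, rfl, Gal.at'_spec (S.ax ω) hv b⟩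
      · rintro (⟨i, -, rfl, h1, h2, h3⟩ | h)
        · exact at'_eq (S.ax ω) hv h1 h2 h3
        · exact absurd hv h.1
    · rw [at'_invalid hv]
      constructor
      · exact fun h => Or.inr ⟨hv, h⟩
      · rintro (⟨i, h, -⟩ | h)
        · exact absurd h hv
        · exact h.2
  rw [he]
  exact measurableSet_setOfPred.2 ((Measurable.exists fun i => (meas_valid S l).and
    ((meas_eq (S.meas.fam l) measurable_const).and ((meas_can S i l').and
      ((meas_eq (S.meas.same l l') measurable_const).and measurable_const)))).or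
    ((meas_valid S l).not.and measurable_const))

theorem meas_ev {β : Type*} [MeasurableSpace β] {F : S.Ω × ℕ → β} (hF : Measurable F)
    {L : S.Ω → Lb} (hL : Measurable L) : Measurable fun ω => S.ev F ω (L ω) := by
  have h : Measurable fun p : S.Ω × Lb => S.ev F p.1 p.2 :=
    measurable_from_prod_countable_left fun l =>
      show Measurable fun x => F (S.T l.1 x, l.2) from
        hF.comp ((S.mp l.1).measurable.prodMk measurable_const)
  exact h.comp (measurable_id.prodMk hL)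

theorem ae_mh (i : Fin 3) {p : S.Ω → Prop} (hp : ∀ᵐ ω ∂S.μ, p ω) :
    ∀ᵐ x ∂(S.mh i), (S.Γ x.1).Can i (0, x.2) ∧ p x.1 := by
  have hm : MeasurableSet {x : S.Ω × ℕ | (S.Γ x.1).Can i (0, x.2)} :=
    measurableSet_setOfPred.2 (measurable_from_prod_countable_left fun j => meas_can S i (0, j))
  exact (ae_restrict_mem hm).and (ae_restrict_of_ae
    ((Measure.quasiMeasurePreserving_fst (μ := S.μ) (ν := Measure.count)).ae hp))

open Classical in
/-- the canonical labels of family `i` in the cell `0` that lie in `D` -/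
noncomputable def cntS (i : Fin 3) (D : Set (S.Ω × ℕ)) (ω : S.Ω) : Finset ℕ :=
  (range ((S.Γ ω).g 0)).filter fun j => (S.Γ ω).Can i (0, j) ∧ (ω, j) ∈ D

theorem mem_cntS {i : Fin 3} {D : Set (S.Ω × ℕ)} {ω : S.Ω} {j : ℕ} :
    j ∈ cntS S i D ω ↔ (S.Γ ω).Can i (0, j) ∧ (ω, j) ∈ D := by
  classical
  unfold cntS
  rw [mem_filter, mem_range]
  exact ⟨fun h => h.2, fun h => ⟨h.1.1, h⟩⟩

theorem cnt_boxLim (hS : S.toDyn.Erg) (i : Fin 3) {D : Set (S.Ω × ℕ)} (hD : MeasurableSet D) :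
    ∀ᵐ ω ∂S.μ, BoxLim (fun w => ((cntS S i D (S.T w ω)).card : ℝ)) (S.mh i D).toReal := by
  classical
  set φ : S.Ω → ℝ≥0∞ := fun ω =>
    ∑' j : ℕ, if (S.Γ ω).Can i (0, j) then D.indicator 1 (ω, j) else 0 with hφ
  have h1 : ∀ ω, φ ω = (cntS S i D ω).card := by
    intro ω
    rw [hφ]
    simp only
    rw [tsum_eq_sum (s := cntS S i D ω), card_eq_sum_ones, Nat.cast_sum]
    · refine sum_congr rfl fun j hj => ?_
      obtain ⟨a1, a2⟩ := (mem_cntS S).1 hj
      rw [if_pos a1, Set.indicator_of_mem a2]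
      simp
    · intro j hj
      rw [mem_cntS, not_and] at hj
      split_ifs with a1
      · exact Set.indicator_of_notMem (hj a1) _
      · rfl
  have h2 : Measurable φ := Measurable.tsum fun j =>
    Measurable.ite (measurableSet_setOfPred.2 (meas_can S i (0, j)))
      ((measurable_one.indicator hD).comp measurable_prodMk_right) measurable_const
  have h3 : ∫⁻ ω, φ ω ∂S.μ = S.mh i D := by
    rw [← lintegral_indicator_one hD, S.lintegral_mh i _ (measurable_one.indicator hD)]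
  have h4 : ∫⁻ ω, φ ω ∂S.μ ≠ ∞ := h3 ▸ measure_ne_top _ _
  have h5 := et2_erg S.μ S.T S.T_zero S.T_add S.mp hS (fun ω => (φ ω).toReal)
    (integrable_toReal_of_lintegral_ne_top h2.aemeasurable h4)
  rw [integral_toReal h2.aemeasurable (ae_lt_top h2 h4), h3] at h5
  simpa only [h1, ENNReal.toReal_natCast] using h5

theorem count_le (hS : S.toDyn.Erg) (i : Fin 3) {D : Set (S.Ω × ℕ)} (hD : MeasurableSet D) :
    ∀ᵐ ω ∂S.μ, ∀ (A : ℕ) (ε : ℝ), 0 < ε → ∀ᶠ u : ℕ in atTop, ∀ L : Finset Lb,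
      (∀ l ∈ L, (S.Γ ω).Can i l ∧ l.1 ∈ box 0 (A * u) ∧ (S.T l.1 ω, l.2) ∈ D) →
      (L.card : ℝ) ≤ ((2 * A + 1) ^ 2 * (S.mh i D).toReal + ε) * (u : ℝ) ^ 2 := by
  filter_upwards [cnt_boxLim S hS i hD] with ω hω A ε hε
  filter_upwards [hω (A + 1) ε hε, eventually_ge_atTop 1] with u hu hu1 L hL
  have hu1' : (1 : ℤ) ≤ u := by exact_mod_cast hu1
  have hA : (0 : ℤ) ≤ A * u := by positivity
  have h1 := hu (-(A * u)) (A * u + 1) (-(A * u)) (A * u + 1) (by push_cast; linarith)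
    (by linarith) (by push_cast; linarith) (by push_cast; linarith) (by linarith)
    (by push_cast; linarith)
  have h2 : L.card ≤ ((Ico (-(A * u : ℤ)) (A * u + 1) ×ˢ Ico (-(A * u : ℤ)) (A * u + 1)).sigma
      fun w => cntS S i D (S.T w ω)).card := by
    refine card_le_card_of_injOn (fun l => ⟨l.1, l.2⟩) (fun l hl => ?_) fun a _ b _ hab => ?_
    · obtain ⟨a1, a2, a3⟩ := hL l hl
      rw [mem_box0, abs_le, abs_le] at a2
      push_cast at a2
      rw [mem_coe, mem_sigma, mem_product, mem_Ico, mem_Ico, mem_cntS]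
      exact ⟨⟨⟨a2.1.1, by linarith [a2.1.2]⟩, a2.2.1, by linarith [a2.2.2]⟩,
        (can_shift0 (S.shift ω l.1) i l.2).2 a1, a3⟩
    · simp only [Sigma.mk.injEq, heq_eq_eq] at hab
      exact Prod.ext hab.1 hab.2
  rw [card_sigma] at h2
  have h3 : (L.card : ℝ) ≤ ∑ w ∈ Ico (-(A * u : ℤ)) (A * u + 1) ×ˢ Ico (-(A * u : ℤ)) (A * u + 1),
      ((cntS S i D (S.T w ω)).card : ℝ) := by exact_mod_cast h2
  have h4 := (abs_le.1 h1).2
  push_cast at h4
  have hu2 : (1 : ℝ) ≤ u := by exact_mod_cast hu1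
  have h5 : ((A : ℝ) * u + 1 - -(A * u)) * (A * u + 1 - -(A * u)) ≤ (2 * A + 1) ^ 2 * u ^ 2 := by
    have a1 : (A : ℝ) * u + 1 - -(A * u) ≤ (2 * A + 1) * u := by linarith
    have a2 : (0 : ℝ) ≤ A * u + 1 - -(A * u) := by
      have : (0 : ℝ) ≤ A * u := by positivity
      linarith
    nlinarith
  nlinarith [mul_le_mul_of_nonneg_right h5 (ENNReal.toReal_nonneg (a := S.mh i D))]

theorem exists_near (hS : S.toDyn.Erg) (i : Fin 3) {D : Set (S.Ω × ℕ)} (hD : MeasurableSet D)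
    (h0 : S.mh i D ≠ 0) : ∀ᵐ ω ∂S.μ, ∀ (A : ℕ) (e : ℝ), 0 < e → e ≤ 1 → ∀ᶠ u : ℕ in atTop,
      ∀ y ∈ box 0 (A * u), ∃ l : Lb, (S.Γ ω).Can i l ∧ (S.T l.1 ω, l.2) ∈ D ∧
        |(l.1.1 : ℝ) - y.1| ≤ e * u ∧ |(l.1.2 : ℝ) - y.2| ≤ e * u := by
  have hm : 0 < (S.mh i D).toReal := ENNReal.toReal_pos h0 (measure_ne_top _ _)
  filter_upwards [cnt_boxLim S hS i hD] with ω hω A e he he1
  filter_upwards [hω (A + 1) ((S.mh i D).toReal * e ^ 2 / 8) (by positivity),
    (tendsto_natCast_atTop_atTop.const_mul_atTop he).eventually_ge_atTop 2] with u hu hu2 y hy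
  obtain ⟨n, n1, n2⟩ : ∃ n : ℕ, (n : ℝ) ≤ e * u ∧ e * u / 2 ≤ n :=
    ⟨⌊e * u⌋₊, Nat.floor_le (by positivity), by linarith [Nat.lt_floor_add_one (e * u)]⟩
  have n3 : (n : ℤ) ≤ u := by
    have : (n : ℝ) ≤ u := n1.trans (mul_le_of_le_one_left (Nat.cast_nonneg u) he1)
    exact_mod_cast this
  rw [mem_box0, abs_le, abs_le] at hy
  push_cast at hy
  have n0 : (0 : ℤ) ≤ n := Int.natCast_nonneg n
  have h1 := hu y.1 (y.1 + n) y.2 (y.2 + n) (by push_cast; linarith [hy.1.1]) (by linarith)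
    (by push_cast; linarith [hy.1.2]) (by push_cast; linarith [hy.2.1]) (by linarith)
    (by push_cast; linarith [hy.2.2])
  by_contra hne
  rw [sum_eq_zero] at h1
  · have h2 := (abs_le.1 h1).1
    simp only [add_sub_cancel_left, Int.cast_natCast] at h2
    have h3 : (e * u / 2) * (e * u / 2) ≤ (n : ℝ) * n :=
      mul_le_mul n2 n2 (by positivity) (by positivity)
    have h4 : 0 < (S.mh i D).toReal * (e * u) ^ 2 := by positivity
    nlinarith [mul_le_mul_of_nonneg_right h3 hm.le]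
  · intro w hw
    rw [Nat.cast_eq_zero, card_eq_zero, eq_empty_iff_forall_notMem]
    intro j hj
    obtain ⟨a1, a2⟩ := (mem_cntS S).1 hj
    rw [mem_product, mem_Ico, mem_Ico] at hw
    refine hne ⟨(w, j), (can_shift0 (S.shift ω w) i j).1 a1, a2, le_trans ?_ n1, le_trans ?_ n1⟩
    · have : |w.1 - y.1| ≤ n := by rw [abs_le]; omega
      exact_mod_cast this
    · have : |w.2 - y.2| ≤ n := by rw [abs_le]; omega
      exact_mod_cast this

end Meas

end U

/-- linear bound for the number of lines -/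
theorem Sys.few_lns (S : Sys) (hS : S.toDyn.Erg) {Λ : (ℝ × ℝ) ≃L[ℝ] (ℝ × ℝ)} (hΛ : S.Lin Λ)
    (B : ℝ) : ∃ K : ℕ, ∀ᵐ ω ∂S.μ, ∀ᶠ u : ℕ in atTop, ∀ i,
      ((S.Γ ω).lns i (B * (S.Γ ω).R u)).card ≤ K * u := by
  obtain ⟨A, hA⟩ := Gal.vis hΛ.ok B 1
  obtain ⟨K, hK⟩ := exists_nat_ge (∑ i, ((2 * A + 1) ^ 2 * (S.mh i Set.univ).toReal + 1) : ℝ)
  refine ⟨K, ?_⟩
  filter_upwards [hΛ.lin, ae_all_iff.2 fun i => U.count_le S hS i MeasurableSet.univ] with ω h1 h2
  filter_upwards [hA (S.ax ω) h1, eventually_all.2 fun i => h2 i A 1 one_pos,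
    eventually_ge_atTop 1] with u a1 a2 hu i
  have hl := fun l => (Gal.mem_lns (S.ax ω) hΛ.ok h1 i (B * (S.Γ ω).R u) l).1
  have b1 := a2 i _ (fun l' hl' => by
    obtain ⟨p, hp, rfl⟩ := mem_image.1 (show l' ∈ (((S.Γ ω).lns i (B * (S.Γ ω).R u)) ×ˢ
      range u).image fun p => (S.Γ ω).at' p.1 (p.2 : ℤ) from hl')
    obtain ⟨c1, c2⟩ := hl _ (mem_product.1 hp).1
    have c3 := mem_range.1 (mem_product.1 hp).2
    exact ⟨c1.1.2.1 ▸ (Gal.at'_spec (S.ax ω) c1.1.1 _).1,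
      a1 _ c1.1.1 c2 _ (by rw [Nat.abs_cast]; omega), trivial⟩)
  rw [U.card_lines (S.ax ω) fun l h => (hl l h).1] at b1
  have b2 : ((2 * A + 1) ^ 2 * (S.mh i Set.univ).toReal + 1 : ℝ) ≤ K :=
    (single_le_sum (f := fun i => ((2 * A + 1) ^ 2 * (S.mh i Set.univ).toReal + 1 : ℝ))
      (fun _ _ => by positivity) (mem_univ i)).trans hK
  have hu' : (0 : ℝ) < u := by exact_mod_cast hu
  have b3 : ((((S.Γ ω).lns i (B * (S.Γ ω).R u)).card : ℝ)) ≤ K * u := by
    refine le_of_mul_le_mul_right ?_ hu'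
    push_cast at b1
    nlinarith [mul_le_mul_of_nonneg_right b2 (sq_nonneg (u : ℝ))]
  exact_mod_cast b3

open Classical in
theorem Sys.few_tp (S : Sys) (hS : S.toDyn.Erg) {Λ : (ℝ × ℝ) ≃L[ℝ] (ℝ × ℝ)} (hΛ : S.Lin Λ) :
    ∃ K : ℕ, ∀ᵐ ω ∂S.μ, ∀ᶠ u : ℕ in atTop, ∀ i,
      (((box 0 u).filter fun w => (S.Γ ω).tp w = true).image
        fun w => (S.Γ ω).rep ((S.Γ ω).tlab w i)).card ≤ K * u := by
  obtain ⟨B, -, hB⟩ := Gal.off_le hΛ.ok 1
  obtain ⟨K, hK⟩ := S.few_lns hS hΛ B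
  refine ⟨K, ?_⟩
  filter_upwards [hΛ.lin, hK] with ω h1 h2
  filter_upwards [hB (S.ax ω) h1, h2] with u a1 a2 i
  refine (card_le_card fun l hl => ?_).trans (a2 i)
  obtain ⟨w, hw, rfl⟩ := mem_image.1 hl
  obtain ⟨w1, w2⟩ := mem_filter.1 hw
  have c := (S.ax ω).tp_can w w2 i
  obtain ⟨c1, c2, c3⟩ := Gal.at'_spec (S.ax ω) c.1 0
  rw [c.2.1] at c1 c3
  rw [Gal.mem_lns (S.ax ω) hΛ.ok h1]
  refine ⟨⟨c1, c3⟩, ?_⟩
  have := a1 _ c.1 (by rwa [one_mul])
  rwa [(S.ax ω).same_s _ _ c.1 c1.1 c2] at this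

/-- most triple points have lines of bounded multiplicity -/
theorem Sys.mult_event (S : Sys) {Λ : (ℝ × ℝ) ≃L[ℝ] (ℝ × ℝ)} (hΛ : S.Lin Λ) (B : Set S.Ω)
    (hB : MeasurableSet B) (hBt : ∀ ω ∈ B, (S.Γ ω).tp 0 = true) (h0 : S.μ B ≠ 0) :
    ∃ M : ℕ, ∃ B' ⊆ B, MeasurableSet B' ∧ S.μ B' ≠ 0 ∧ ∀ ω w, S.T w ω ∈ B' →
      ∀ i, (S.Γ ω).MultLE ((S.Γ ω).tlab w i) M := by
  have hm : ∀ (l : Lb) (M : ℕ), Measurable fun ω => (S.Γ ω).MultLE l M := fun l M =>
    Measurable.forall fun J => Measurable.imp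
      (Measurable.forall fun l' => Measurable.imp measurable_const ((U.meas_valid S l').and
        ((U.meas_eq (S.meas.fam l') (S.meas.fam l)).and
          ((measurableSet_setOfPred.1 (measurableSet_eq_fun (S.meas.t l') (S.meas.t l))).and
            (measurableSet_setOfPred.1 (measurableSet_eq_fun (S.meas.s l') (S.meas.s l)))))))
      (Measurable.imp (Measurable.forall fun a => Measurable.imp measurable_const
        (Measurable.forall fun b => Measurable.imp measurable_const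
          (Measurable.imp (U.meas_eq (S.meas.same a b) measurable_const) measurable_const)))
        measurable_const)
  let E : ℕ → Set S.Ω := fun M =>
    B ∩ {ω | ∀ i j, (S.Γ ω).tl 0 i = j → (S.Γ ω).MultLE (0, j) M}
  have hE : ∀ M, MeasurableSet (E M) := fun M => hB.inter (measurableSet_setOfPred.2
    (Measurable.forall fun i => Measurable.forall fun j =>
      Measurable.imp (U.meas_eq (S.meas.tl 0 i) measurable_const) (hm _ M)))
  obtain ⟨M, hM⟩ : ∃ M, S.μ (E M) ≠ 0 := by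
    by_contra hne
    push Not at hne
    refine h0 (measure_mono_null_ae ?_ (measure_iUnion_null hne))
    filter_upwards [hΛ.lin] with ω h1 hω
    choose M hM using fun i =>
      Gal.mult_fin (S.ax ω) hΛ.ok h1 ((S.ax ω).tp_can 0 (hBt ω hω) i).1
    refine Set.mem_iUnion.2 ⟨∑ i, M i, hω, ?_⟩
    rintro i j rfl J a1 a2
    exact (hM i J a1 a2).trans (single_le_sum (fun _ _ => Nat.zero_le _) (mem_univ i))
  refine ⟨M, E M, Set.inter_subset_left, hE M, hM, fun ω w hw i => ?_⟩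
  have hs := S.shift ω w
  have h1 : (S.Γ ω).tp w = true := by
    have := hBt _ hw.1
    rwa [hs.tp, add_zero] at this
  refine U.multLE_shift hs ((S.ax ω).tp_can w h1 i).1 (hw.2 i _ ?_)
  rw [hs.tl, add_zero]

open Classical in
/-- the ergodic theorem along lines holds uniformly for most lines at a given scale -/
theorem Sys.line_unif (S : Sys) (hS : S.toDyn.Erg) {Λ : (ℝ × ℝ) ≃L[ℝ] (ℝ × ℝ)} (hΛ : S.Lin Λ)
    (i : Fin 3) (F Fb : S.Ω × ℕ → ℝ) (hF : Measurable F) (hFb : Measurable Fb)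
    (hline : S.LineFn Fb)
    (h : ∀ᵐ ω ∂S.μ, ∀ l, (S.Γ ω).valid l → (S.Γ ω).fam l = i →
      IntLim (fun b => S.ev F ω ((S.Γ ω).at' l b)) (S.ev Fb ω l))
    (B : ℝ) (A : ℕ) (ε δ : ℝ) (hε : 0 < ε) (hδ : 0 < δ) :
    ∀ᵐ ω ∂S.μ, ∀ᶠ u : ℕ in atTop,
      ((((S.Γ ω).lns i (B * (S.Γ ω).R u)).filter fun l => ¬ ∀ a1 a2 : ℤ,
        -((A : ℤ) * u) ≤ a1 → a1 ≤ a2 → a2 ≤ (A : ℤ) * u →
        |(∑ b ∈ Ico a1 a2, S.ev F ω ((S.Γ ω).at' l b)) - ((a2 - a1 : ℤ) : ℝ) * S.ev Fb ω l|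
          ≤ ε * u).card : ℝ) ≤ δ * u := by
  obtain ⟨A', hA'⟩ := Gal.vis hΛ.ok B 1
  let D : ℕ → Set (S.Ω × ℕ) := fun n0 => {x | ¬ ∀ n : ℕ, n0 ≤ n → ∀ a1 a2 : ℤ,
    -(((A + 1 : ℕ) : ℤ) * n) ≤ a1 → a1 ≤ a2 → a2 ≤ ((A + 1 : ℕ) : ℤ) * n →
    |(∑ b ∈ Ico a1 a2, S.ev F x.1 ((S.Γ x.1).at' (0, x.2) b)) - ((a2 - a1 : ℤ) : ℝ) * Fb x|
      ≤ ε * n}
  have hD : ∀ n0, MeasurableSet (D n0) := fun n0 => by
    refine measurableSet_setOfPred.2 (Measurable.not (Measurable.forall fun n =>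
      Measurable.imp measurable_const (Measurable.forall fun a1 => Measurable.forall fun a2 =>
        Measurable.imp measurable_const (Measurable.imp measurable_const
          (Measurable.imp measurable_const (measurableSet_setOfPred.1
            (measurableSet_le ?_ measurable_const)))))))
    refine (Measurable.sub (Finset.measurable_sum _ fun b _ => ?_) (hFb.const_mul _)).abs
    exact measurable_from_prod_countable_left fun j => U.meas_ev S hF (U.meas_at' S (0, j) b)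
  have hanti : Antitone D := fun a b hab x hx hx' => hx fun n hn => hx' n (hab.trans hn)
  have hnull : S.mh i (⋂ n0, D n0) = 0 := by
    refine measure_eq_zero_iff_ae_notMem.2 ?_
    filter_upwards [U.ae_mh S i h] with x hx hx'
    obtain ⟨n0, hn0⟩ := eventually_atTop.1 (hx.2 (0, x.2) hx.1.1 hx.1.2.1 (A + 1) ε hε)
    refine Set.mem_iInter.1 hx' n0 fun n hn a1 a2 b1 b2 b3 => ?_
    have := hn0 n hn a1 a2 b1 b2 b3
    rwa [show S.ev Fb x.1 (0, x.2) = Fb x by unfold Sys.ev; rw [S.T_zero]] at this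
  have hlim := tendsto_measure_iInter_atTop (μ := S.mh i) (fun n => (hD n).nullMeasurableSet)
    hanti ⟨0, measure_ne_top _ _⟩
  rw [hnull] at hlim
  have hlim' := ((ENNReal.tendsto_toReal ENNReal.zero_ne_top).comp hlim).const_mul
    ((2 * A' + 1) ^ 2 : ℝ)
  rw [ENNReal.toReal_zero, mul_zero] at hlim'
  obtain ⟨n0, hn0⟩ := (hlim'.eventually (eventually_le_nhds (half_pos hδ))).exists
  filter_upwards [hΛ.lin, hline, U.count_le S hS i (hD n0)] with ω h1 h2 h3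
  filter_upwards [hA' (S.ax ω) h1, h3 A' (δ / 2) (half_pos hδ), eventually_ge_atTop 1,
    eventually_ge_atTop n0] with u a1 a2 hu hu0
  set L := ((S.Γ ω).lns i (B * (S.Γ ω).R u)).filter fun l => ¬ ∀ a1 a2 : ℤ,
        -((A : ℤ) * u) ≤ a1 → a1 ≤ a2 → a2 ≤ (A : ℤ) * u →
        |(∑ b ∈ Ico a1 a2, S.ev F ω ((S.Γ ω).at' l b)) - ((a2 - a1 : ℤ) : ℝ) * S.ev Fb ω l|
          ≤ ε * u with hL
  have hl := fun l (hl : l ∈ L) =>
    (Gal.mem_lns (S.ax ω) hΛ.ok h1 i (B * (S.Γ ω).R u) l).1 (mem_filter.1 hl).1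
  have b1 := a2 ((L ×ˢ range u).image fun p => (S.Γ ω).at' p.1 (p.2 : ℤ)) (fun l' hl' => by
    obtain ⟨p, hp, rfl⟩ := mem_image.1 hl'
    obtain ⟨c1, c2⟩ := hl _ (mem_product.1 hp).1
    have c3 := mem_range.1 (mem_product.1 hp).2
    obtain ⟨d1, d2, d3⟩ := Gal.at'_spec (S.ax ω) c1.1.1 (p.2 : ℤ)
    rw [c1.1.2.1] at d1 d3
    refine ⟨d1, a1 _ c1.1.1 c2 _ (by rw [Nat.abs_cast]; omega), fun hgood => ?_⟩
    refine (mem_filter.1 (mem_product.1 hp).1).2 fun x1 x2 e1 e2 e3 => ?_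
    have g := hgood u hu0 (x1 - p.2) (x2 - p.2) (by push_cast; linarith [(by omega : (p.2 : ℤ) ≤ u)])
      (by linarith) (by push_cast; linarith [(by omega : (0 : ℤ) ≤ p.2), (by omega : (0 : ℤ) ≤ u)])
    set l' := (S.Γ ω).at' p.1 (p.2 : ℤ) with hl'd
    have g1 : ∀ c : ℤ, S.ev F (S.T l'.1 ω) ((S.Γ (S.T l'.1 ω)).at' (0, l'.2) c) =
        S.ev F ω ((S.Γ ω).at' p.1 (c + p.2)) := fun c => by
      rw [U.ev_T, ← U.at'_shift (S.ax ω) (S.ax _) (S.shift ω l'.1) (j := l'.2) d1 c, d3,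
        Gal.at'_congr (S.ax ω) c1.1.1 d1.1 d2, add_comm]
    have g2 : Fb (S.T l'.1 ω, l'.2) = S.ev Fb ω p.1 := (h2 _ _ c1.1.1 d1.1 d2).symm
    simp only [g1, g2, sub_sub_sub_cancel_right] at g
    rwa [sum_Ico_add' (fun b => S.ev F ω ((S.Γ ω).at' p.1 b)), sub_add_cancel,
      sub_add_cancel] at g)
  rw [U.card_lines (S.ax ω) fun l h => (hl l h).1] at b1
  have hu' : (0 : ℝ) < u := by exact_mod_cast hu
  refine le_of_mul_le_mul_right ?_ hu'
  push_cast at b1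
  simp only [Function.comp] at hn0
  nlinarith [mul_le_mul_of_nonneg_right hn0 (sq_nonneg (u : ℝ))]

end ECub
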