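import Pool.Agent.P.MP_029dcd_co.F.U.Loc

/-! Layer U, part 4: blow-down limits of the vertex map are linear. -/

set_option autoImplicit false

namespace ECub

open CubicStab MeasureTheory Filter Topology Finset
open scoped ENNReal

namespace U

section Algebra

/-- the determinant of two plane vectors -/
def det (a b : ℝ × ℝ) : ℝ := a.1 * b.2 - a.2 * b.1

theorem decomp {d d' : ℝ × ℝ} (h : det d d' ≠ 0) (a : ℝ × ℝ) :
    a = (det a d' / det d d') • d + (det d a / det d d') • d' := by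
  ext
  · simp only [Prod.fst_add, Prod.smul_fst, smul_eq_mul]
    field_simp
    unfold det
    ring
  · simp only [Prod.snd_add, Prod.smul_snd, smul_eq_mul]
    field_simp
    unfold det
    ring

theorem par_of_det {d d' : ℝ × ℝ} (hd : d ≠ 0) (h : det d d' = 0) : ∃ c : ℝ, d' = c • d := by
  unfold det at h
  by_cases h1 : d.1 = 0
  · have h2 : d.2 ≠ 0 := fun h2 => hd (Prod.ext h1 h2)
    refine ⟨d'.2 / d.2, Prod.ext ?_ ?_⟩
    · rw [h1, zero_mul, zero_sub, neg_eq_zero] at h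
      simp [h1, (mul_eq_zero.1 h).resolve_left h2]
    · simp [h2]
  · refine ⟨d'.1 / d.1, Prod.ext ?_ ?_⟩
    · simp [h1]
    · simp only [Prod.smul_snd, smul_eq_mul]
      field_simp
      linarith

theorem add_of_three {f g h : ℝ × ℝ → ℝ} {d0 d1 d2 : ℝ × ℝ}
    (hf : ∀ α (s : ℝ), f (α + s • d0) = f α) (hg : ∀ α (s : ℝ), g (α + s • d1) = g α)
    (hh : ∀ α (s : ℝ), h (α + s • d2) = h α) (hs : ∀ α, f α = g α + h α) (h0 : f 0 = 0)
    (h1 : det d0 d1 ≠ 0) (h2 : det d0 d2 ≠ 0) (a b : ℝ × ℝ) : f (a + b) = f a + f b := by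
  have key : ∀ s r : ℝ, f (s • d1 + r • d2) = f (s • d1) + f (r • d2) := by
    intro s r
    have e1 := hg (r • d2) s
    have e2 := hg 0 s
    have e3 := hh (s • d1) r
    have e4 := hh 0 r
    rw [add_comm] at e1
    rw [zero_add] at e2 e4
    rw [hs, hs (s • d1), hs (r • d2), e1, e2, e3, e4]
    linarith [hs 0]
  obtain ⟨x, s, rfl⟩ : ∃ x s : ℝ, a = s • d1 + x • d0 := ⟨_, _, (decomp h1 a).trans (add_comm _ _)⟩
  obtain ⟨y, r, rfl⟩ : ∃ y r : ℝ, b = r • d2 + y • d0 := ⟨_, _, (decomp h2 b).trans (add_comm _ _)⟩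
  rw [hf, hf, ← key, ← hf (s • d1 + r • d2) (x + y), add_smul]
  congr 1
  abel

theorem pexider {W : ℝ × ℝ → ℝ × ℝ} {t : Fin 3 → ℝ} {d : Fin 3 → ℝ × ℝ} (h0 : W 0 = 0)
    (hinv : ∀ i α (s : ℝ), (W (α + s • d i)).2 - t i * (W (α + s • d i)).1 =
      (W α).2 - t i * (W α).1)
    (hne : ∀ α, W α = 0 → α = 0) (hd : ∀ i, d i ≠ 0) (ht : ∀ i j, i ≠ j → t i ≠ t j) :
    (∀ i j, i ≠ j → det (d i) (d j) ≠ 0) ∧ ∀ a b, W (a + b) = W a + W b := by
  have hdet : ∀ i j, i ≠ j → det (d i) (d j) ≠ 0 := by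
    intro i j hij h
    obtain ⟨c, hc⟩ := par_of_det (hd i) h
    have e1 := hinv i 0 c
    have e2 := hinv j 0 1
    rw [zero_add, ← hc, h0] at e1
    rw [zero_add, one_smul, h0] at e2
    simp only [Prod.snd_zero, Prod.fst_zero, mul_zero, sub_zero] at e1 e2
    have e3 : (W (d j)).1 = 0 :=
      mul_left_cancel₀ (sub_ne_zero.2 (ht i j hij)) (by linear_combination e2 - e1)
    refine hd j (hne _ (Prod.ext e3 ?_))
    rw [e3] at e1
    simpa using e1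
  refine ⟨hdet, fun a b => ?_⟩
  have z0 := add_of_three (f := fun α => (t 1 - t 2) * ((W α).2 - t 0 * (W α).1))
    (g := fun α => -(t 2 - t 0) * ((W α).2 - t 1 * (W α).1))
    (h := fun α => -(t 0 - t 1) * ((W α).2 - t 2 * (W α).1))
    (fun α s => by simp only [hinv 0]) (fun α s => by simp only [hinv 1])
    (fun α s => by simp only [hinv 2]) (fun α => by ring) (by simp [h0])
    (hdet 0 1 (by decide)) (hdet 0 2 (by decide)) a b
  have z1 := add_of_three (f := fun α => (t 2 - t 0) * ((W α).2 - t 1 * (W α).1))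
    (g := fun α => -(t 1 - t 2) * ((W α).2 - t 0 * (W α).1))
    (h := fun α => -(t 0 - t 1) * ((W α).2 - t 2 * (W α).1))
    (fun α s => by simp only [hinv 1]) (fun α s => by simp only [hinv 0])
    (fun α s => by simp only [hinv 2]) (fun α => by ring) (by simp [h0])
    (hdet 1 0 (by decide)) (hdet 1 2 (by decide)) a b
  rw [← mul_add] at z0 z1
  have y0 := mul_left_cancel₀ (sub_ne_zero.2 (ht 1 2 (by decide))) z0
  have y1 := mul_left_cancel₀ (sub_ne_zero.2 (ht 2 0 (by decide))) z1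
  have x1 : (W (a + b)).1 = (W a).1 + (W b).1 :=
    mul_left_cancel₀ (sub_ne_zero.2 (ht 1 0 (by decide))) (by linear_combination y0 - y1)
  refine Prod.ext x1 ?_
  rw [Prod.snd_add]
  linear_combination y0 + t 0 * x1

/-- the properties that determine the limit map -/
def Good (d : Fin 3 → ℝ × ℝ) (t : Fin 3 → ℝ) (Λ : (ℝ × ℝ) ≃L[ℝ] (ℝ × ℝ)) : Prop :=
  (∀ i, (Λ (d i)).2 = t i * (Λ (d i)).1) ∧ 2 * (Λ (1, 1)).2 = 1 ∧
    (∀ i j, i ≠ j → det (d i) (d j) ≠ 0) ∧ LamOK Λ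

theorem Good.unique {d : Fin 3 → ℝ × ℝ} {t : Fin 3 → ℝ} (ht : ∀ i j, i ≠ j → t i ≠ t j)
    {Λ Λ' : (ℝ × ℝ) ≃L[ℝ] (ℝ × ℝ)} (h : Good d t Λ) (h' : Good d t Λ') : Λ = Λ' := by
  obtain ⟨a1, a2, hdet, -⟩ := h
  obtain ⟨b1, b2, -, -⟩ := h'
  have h01 := hdet 0 1 (by decide)
  obtain ⟨p, q, hq, e2⟩ : ∃ p q : ℝ, q ≠ 0 ∧ d 2 = p • d 0 + q • d 1 :=
    ⟨_, _, div_ne_zero (hdet 0 2 (by decide)) h01, decomp h01 (d 2)⟩
  obtain ⟨x, y, e1⟩ : ∃ x y : ℝ, ((1, 1) : ℝ × ℝ) = x • d 0 + y • d 1 := ⟨_, _, decomp h01 _⟩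
  have c1 := a1 2
  have c2 := b1 2
  rw [e2] at c1 c2
  rw [e1] at a2 b2
  simp only [map_add, map_smul, Prod.fst_add, Prod.snd_add, Prod.smul_fst, Prod.smul_snd,
    smul_eq_mul, a1 0, a1 1, b1 0, b1 1] at c1 c2 a2 b2
  have hB : q * (t 1 - t 2) ≠ 0 := mul_ne_zero hq (sub_ne_zero.2 (ht 1 2 (by decide)))
  have hE : q * (t 1 - t 2) * x * t 0 - p * (t 0 - t 2) * y * t 1 ≠ 0 := by
    intro hE
    refine hB ?_
    linear_combination (-(q * (t 1 - t 2))) * a2 + 2 * (Λ (d 0)).1 * hE + 2 * y * t 1 * c1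
  have m0 : (Λ (d 0)).1 = (Λ' (d 0)).1 := mul_left_cancel₀ hE (by
    linear_combination (q * (t 1 - t 2) / 2) * (a2 - b2) - y * t 1 * (c1 - c2))
  have m1 : (Λ (d 1)).1 = (Λ' (d 1)).1 := mul_left_cancel₀ hB (by
    linear_combination c1 - c2 - p * (t 0 - t 2) * m0)
  have n0 : Λ (d 0) = Λ' (d 0) := Prod.ext m0 (by rw [a1, b1, m0])
  have n1 : Λ (d 1) = Λ' (d 1) := Prod.ext m1 (by rw [a1, b1, m1])
  ext1
  funext a
  rw [decomp h01 a, map_add, map_add, map_smul, map_smul, map_smul, map_smul, n0, n1]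

end Algebra

variable {G : Gal} {k : ℕ} {C : ℝ}

/-- the macroscopic position of a cell -/
noncomputable def pos (w : Z2) (u : ℕ) : ℝ × ℝ := ((w.1 : ℝ) / u, (w.2 : ℝ) / u)

/-- the cell with macroscopic position near `α` -/
noncomputable def fl (α : ℝ × ℝ) (u : ℕ) : Z2 := (⌊(u : ℝ) * α.1⌋, ⌊(u : ℝ) * α.2⌋)

theorem tendsto_floor (x : ℝ) : Tendsto (fun u : ℕ => (⌊(u : ℝ) * x⌋ : ℝ) / u) atTop (𝓝 x) := by
  rw [tendsto_iff_norm_sub_tendsto_zero]
  refine squeeze_zero' (Eventually.of_forall fun _ => norm_nonneg _) ?_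
    tendsto_one_div_atTop_nhds_zero_nat
  filter_upwards [eventually_ge_atTop 1] with u hu
  have h0 : (0 : ℝ) < u := by exact_mod_cast hu
  have e : (⌊(u : ℝ) * x⌋ : ℝ) / u - x = (⌊(u : ℝ) * x⌋ - u * x) / u := by field_simp
  rw [e, Real.norm_eq_abs, abs_div, abs_of_pos h0]
  refine div_le_div_of_nonneg_right (abs_le.2 ⟨?_, ?_⟩) h0.le
  · linarith [Int.lt_floor_add_one ((u : ℝ) * x)]
  · linarith [Int.floor_le ((u : ℝ) * x)]

theorem tendsto_fl (α : ℝ × ℝ) : Tendsto (fun u => pos (fl α u) u) atTop (𝓝 α) :=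
  (tendsto_floor α.1).prodMk_nhds (tendsto_floor α.2)

theorem norm_pos_le {w : Z2} {u : ℕ} (hu : 1 ≤ u) {x : ℝ} :
    ‖pos w u‖ ≤ x ↔ |(w.1 : ℝ)| ≤ x * u ∧ |(w.2 : ℝ)| ≤ x * u := by
  have h0 : (0 : ℝ) < u := by exact_mod_cast hu
  rw [pos, Prod.norm_def, max_le_iff, Real.norm_eq_abs, Real.norm_eq_abs, abs_div, abs_div,
    abs_of_pos h0, div_le_iff₀ h0, div_le_iff₀ h0]

theorem mem_box_pos {w : Z2} {u : ℕ} (hu : 1 ≤ u) {A : ℕ} :
    w ∈ box 0 (A * u) ↔ ‖pos w u‖ ≤ A := by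
  rw [norm_pos_le hu, mem_box0]
  norm_cast

theorem pos_sub (w w' : Z2) (u : ℕ) : pos (w - w') u = pos w u - pos w' u := by
  simp [pos, sub_div]

theorem ev_box {U : Filter ℕ} (hU : U ≤ atTop) {w : ℕ → Z2} {α : ℝ × ℝ}
    (h : Tendsto (fun u => pos (w u) u) U (𝓝 α)) {A : ℕ} (hA : ‖α‖ < A) :
    ∀ᶠ u in U, w u ∈ box 0 (A * u) := by
  filter_upwards [h.norm.eventually (eventually_le_nhds hA), hU (eventually_ge_atTop 1)]
    with u h1 h2
  exact (mem_box_pos h2).2 h1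

/-- `W` is the blow-down limit of the vertex map along `U` -/
def IsLim (G : Gal) (U : Filter ℕ) (W : ℝ × ℝ → ℝ × ℝ) : Prop :=
  ∀ (w : ℕ → Z2) (α : ℝ × ℝ), Tendsto (fun u => pos (w u) u) U (𝓝 α) →
    Tendsto (fun u => (G.R u)⁻¹ • G.v (w u)) U (𝓝 (W α))

theorem norm_inv_smul_le {r c : ℝ} (hr : 0 < r) {p : ℝ × ℝ} (h : ‖p‖ ≤ c * r) :
    ‖r⁻¹ • p‖ ≤ c := by
  rw [norm_smul, norm_inv, Real.norm_eq_abs, abs_of_pos hr, inv_mul_le_iff₀ hr]
  linarith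

theorem exists_isLim (hG : G.Ax k C) (U : Ultrafilter ℕ) (hU : (U : Filter ℕ) ≤ atTop) :
    ∃ W, IsLim G U W := by
  have hex : ∀ α : ℝ × ℝ, ∃ p, Tendsto (fun u => (G.R u)⁻¹ • G.v (fl α u)) U (𝓝 p) := by
    intro α
    obtain ⟨A, hA⟩ := exists_nat_gt ‖α‖
    obtain ⟨K, hK, h1⟩ := R_le hG A
    obtain ⟨p, -, hp⟩ := (isCompact_closedBall (0 : ℝ × ℝ) (4 * K)).ultrafilter_le_nhds
      (U.map fun u => (G.R u)⁻¹ • G.v (fl α u)) (by
        rw [le_principal_iff, Ultrafilter.coe_map, Filter.mem_map]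
        filter_upwards [ev_box hU ((tendsto_fl α).mono_left hU) hA, hU h1, hU (R_pos hG)]
          with u a1 a2 a3
        refine mem_closedBall_zero_iff.2 (norm_inv_smul_le a3 ?_)
        have a4 : G.R (A * u) ≤ K * G.R u := a2
        linarith [norm_v_le hG a1])
    exact ⟨p, hp⟩
  choose W hW using hex
  refine ⟨W, fun w α hw => ?_⟩
  obtain ⟨A, hA⟩ := exists_nat_gt ‖α‖
  have hfl := (tendsto_fl α).mono_left hU
  have hz : Tendsto (fun u => (G.R u)⁻¹ • G.v (w u) - (G.R u)⁻¹ • G.v (fl α u)) U (𝓝 0) := by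
    rw [NormedAddGroup.tendsto_nhds_zero]
    intro δ hδ
    obtain ⟨e, he, h1⟩ := equi hG A (half_pos hδ)
    have h2 := (hw.sub hfl).norm
    rw [sub_self, norm_zero] at h2
    filter_upwards [ev_box hU hfl hA, hU h1, hU (R_pos hG), h2.eventually (eventually_le_nhds he),
      hU (eventually_ge_atTop 1)] with u a1 a2 a3 a4 a5
    rw [← pos_sub, norm_pos_le a5] at a4
    simp only [Prod.fst_sub, Prod.snd_sub, Int.cast_sub] at a4
    rw [← smul_sub]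
    exact (norm_inv_smul_le a3 (a2 _ a1 _ a4.1 a4.2)).trans_lt (half_lt_self hδ)
  simpa using hz.add (hW α)

/-- lines of slope near `t0` that move in the direction `d` are macroscopically dense -/
def SeqGen (G : Gal) (d : ℝ × ℝ) (t0 : ℝ) : Prop :=
  ∀ (α : ℝ × ℝ) (h : ℝ), ∃ l l' : ℕ → Lb,
    (∀ᶠ u in atTop, G.valid (l u) ∧ G.valid (l' u) ∧ G.same (l u) (l' u) = true) ∧
    Tendsto (fun u => pos (l u).1 u) atTop (𝓝 α) ∧
    Tendsto (fun u => pos (l' u).1 u) atTop (𝓝 (α + h • d)) ∧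
    Tendsto (fun u => G.t (l u)) atTop (𝓝 t0)

section Lim

variable {U : Filter ℕ} [U.NeBot] {W : ℝ × ℝ → ℝ × ℝ}

theorem IsLim.zero (hG : G.Ax k C) (hW : IsLim G U W) : W 0 = 0 := by
  have h := hW (fun _ => 0) 0 (by simp [pos])
  simp only [hG.v_zero, smul_zero] at h
  exact (tendsto_nhds_unique tendsto_const_nhds h).symm

theorem IsLim.bdd (hG : G.Ax k C) (hU : U ≤ atTop) (hW : IsLim G U W) {α : ℝ × ℝ}
    (hα : ‖α‖ < 1) : ‖W α‖ ≤ 4 := by
  have hfl := (tendsto_fl α).mono_left hU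
  refine le_of_tendsto (hW _ α hfl).norm ?_
  filter_upwards [ev_box hU hfl (A := 1) (by simpa using hα), hU (R_pos hG)] with u a1 a2
  rw [one_mul] at a1
  exact norm_inv_smul_le a2 (norm_v_le hG a1)

theorem IsLim.ne (hG : G.Ax k C) (hU : U ≤ atTop) (hW : IsLim G U W) (α : ℝ × ℝ)
    (h : W α = 0) : α = 0 := by
  by_contra hα
  obtain ⟨m, hm⟩ := exists_nat_one_div_lt (norm_pos_iff.2 hα)
  obtain ⟨K, hK, h1⟩ := sep0 hG (m + 1)
  have hfl := (tendsto_fl α).mono_left hU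
  have h2 := (hW _ α hfl).norm
  rw [h, norm_zero] at h2
  have h3 : K⁻¹ ≤ 0 := by
    refine ge_of_tendsto h2 ?_
    filter_upwards [hfl.norm.eventually (eventually_gt_nhds hm), hU h1, hU (R_pos hG),
      hU (eventually_ge_atTop 1)] with u a1 a2 a3 a4
    have a5 : G.R u ≤ K * ‖G.v (fl α u)‖ := by
      refine a2 _ ?_
      by_contra hh
      have b1 : ((m + 1 : ℕ) : ℝ) * max |((fl α u).1 : ℝ)| |((fl α u).2 : ℝ)| < u := by
        exact_mod_cast not_le.1 hh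
      have b2 : max |((fl α u).1 : ℝ)| |((fl α u).2 : ℝ)| ≤ 1 / ((m : ℝ) + 1) * u := by
        rw [div_mul_eq_mul_div, le_div_iff₀ (by positivity)]
        push_cast at b1
        linarith
      exact absurd ((norm_pos_le a4).2 (max_le_iff.1 b2)) (not_le.2 a1)
    have a3' : 0 < G.R u := a3
    rw [norm_smul, norm_inv, Real.norm_eq_abs, abs_of_pos a3', le_inv_mul_iff₀ a3',
      mul_inv_le_iff₀ hK]
    linarith
  exact absurd h3 (not_le.2 (inv_pos.2 hK))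

omit [U.NeBot] in
theorem IsLim.cs (hU : U ≤ atTop) (hW : IsLim G U W) {w : ℕ → Z2} {α : ℝ × ℝ}
    (hw : Tendsto (fun u => pos (w u) u) U (𝓝 α)) :
    Tendsto (fun u => (G.R u)⁻¹ * G.cs (w u)) U (𝓝 0) := by
  have h0 : Tendsto (fun u => pos (1, 1) u) atTop (𝓝 0) := by
    have := tendsto_one_div_atTop_nhds_zero_nat (𝕜 := ℝ)
    have h := this.prodMk_nhds this
    rw [Prod.mk_zero_zero] at h
    simpa [pos] using h
  have h1 := hW (fun u => w u - (1, 1)) α (by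
    simpa [pos_sub] using hw.sub (h0.mono_left hU))
  have h2 := ((hW w α hw).sub h1).snd_nhds
  simpa [Gal.cs, mul_sub] using h2

theorem IsLim.inv (hG : G.Ax k C) (hU : U ≤ atTop) (hW : IsLim G U W) {d : ℝ × ℝ} {t0 : ℝ}
    (hs : SeqGen G d t0) (α : ℝ × ℝ) (s : ℝ) :
    (W (α + s • d)).2 - t0 * (W (α + s • d)).1 = (W α).2 - t0 * (W α).1 := by
  obtain ⟨l, l', h1, h2, h3, h4⟩ := hs α s
  have a := hW _ _ (h2.mono_left hU)
  have b := hW _ _ (h3.mono_left hU)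
  have t := h4.mono_left hU
  have lhs := ((b.snd_nhds.sub (t.mul b.fst_nhds)).sub (a.snd_nhds.sub (t.mul a.fst_nhds))).abs
  have rhs := ((hW.cs hU (h2.mono_left hU)).add (hW.cs hU (h3.mono_left hU))).const_mul 6
  have key := le_of_tendsto_of_tendsto lhs rhs (by
    filter_upwards [hU h1, hU (R_pos hG)] with u c c0
    obtain ⟨c1, c2, c3⟩ := c
    have c0' : 0 < (G.R u)⁻¹ := inv_pos.2 c0
    have n1 := abs_le.1 (hG.near _ c1)
    have n2 := abs_le.1 (hG.near _ c2)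
    rw [← hG.same_t _ _ c1 c2 c3, ← hG.same_s _ _ c1 c2 c3] at n2
    simp only [Prod.smul_fst, Prod.smul_snd, smul_eq_mul]
    rw [abs_le]
    constructor <;> nlinarith [mul_le_mul_of_nonneg_left n1.1 c0'.le,
      mul_le_mul_of_nonneg_left n1.2 c0'.le, mul_le_mul_of_nonneg_left n2.1 c0'.le,
      mul_le_mul_of_nonneg_left n2.2 c0'.le])
  rw [add_zero, mul_zero, abs_nonpos_iff, sub_eq_zero] at key
  exact key

omit [U.NeBot] in
theorem IsLim.int (hU : U ≤ atTop) (hW : IsLim G U W) (a b : ℤ) :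
    Tendsto (fun u : ℕ => (G.R u)⁻¹ • G.v (a * u, b * u)) U (𝓝 (W (a, b))) := by
  refine hW _ _ (tendsto_const_nhds.congr' ?_)
  filter_upwards [hU (eventually_ge_atTop 1)] with u hu
  have h0 : (u : ℝ) ≠ 0 := by
    have : 1 ≤ u := hu
    positivity
  simp [pos, h0]

theorem IsLim.norm (hG : G.Ax k C) (hU : U ≤ atTop) (hW : IsLim G U W) :
    (W (1, 1)).2 - (W (-1, -1)).2 = 1 := by
  have h := ((hW.int hU 1 1).sub (hW.int hU (-1) (-1))).snd_nhds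
  simp only [Int.cast_one, Int.cast_neg, Prod.snd_sub] at h
  refine tendsto_nhds_unique h (tendsto_const_nhds.congr' ?_)
  filter_upwards [hU (R_pos hG)] with u hu
  have h0 : G.R u ≠ 0 := ne_of_gt hu
  simp only [Prod.smul_snd, smul_eq_mul, one_mul, neg_mul, ← mul_sub]
  exact (inv_mul_cancel₀ h0).symm

theorem IsLim.cones (hG : G.Ax k C) (hU : U ≤ atTop) (hW : IsLim G U W) :
    (99 / 100 * -(W (1, 0)).1 ≤ (W (1, 0)).2 ∧ (W (1, 0)).2 ≤ 101 / 100 * -(W (1, 0)).1) ∧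
      99 / 100 * (W (0, 1)).1 ≤ (W (0, 1)).2 ∧ (W (0, 1)).2 ≤ 101 / 100 * (W (0, 1)).1 := by
  have a := hW.int hU 1 0
  have b := hW.int hU 0 1
  simp only [Int.cast_one, Int.cast_zero, one_mul, zero_mul] at a b
  have hz : G.v (0, 0) = 0 := hG.v_zero
  have hr : ∀ u, 0 ≤ (G.R u)⁻¹ := fun u => inv_nonneg.2 (R_nonneg hG u)
  have c1 := fun u : ℕ => cone1 hG (Int.natCast_nonneg u) 0
  have c2 := fun u : ℕ => cone2 hG 0 (Int.natCast_nonneg u)
  simp only [hz, Prod.fst_zero, Prod.snd_zero, sub_zero, zero_sub] at c1 c2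
  refine ⟨⟨le_of_tendsto_of_tendsto' (a.fst_nhds.neg.const_mul _) a.snd_nhds fun u => ?_,
    le_of_tendsto_of_tendsto' a.snd_nhds (a.fst_nhds.neg.const_mul _) fun u => ?_⟩,
    le_of_tendsto_of_tendsto' (b.fst_nhds.const_mul _) b.snd_nhds fun u => ?_,
    le_of_tendsto_of_tendsto' b.snd_nhds (b.fst_nhds.const_mul _) fun u => ?_⟩ <;>
    simp only [Prod.smul_fst, Prod.smul_snd, smul_eq_mul]
  · linarith [mul_le_mul_of_nonneg_left (c1 u).1 (hr u)]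
  · linarith [mul_le_mul_of_nonneg_left (c1 u).2 (hr u)]
  · linarith [mul_le_mul_of_nonneg_left (c2 u).1 (hr u)]
  · linarith [mul_le_mul_of_nonneg_left (c2 u).2 (hr u)]

end Lim

theorem exists_good (hG : G.Ax k C) {d : Fin 3 → ℝ × ℝ} {t : Fin 3 → ℝ}
    (hs : ∀ i, SeqGen G (d i) (t i)) (hd : ∀ i, d i ≠ 0) (ht : ∀ i j, i ≠ j → t i ≠ t j)
    (U : Ultrafilter ℕ) (hU : (U : Filter ℕ) ≤ atTop) :
    ∃ Λ : (ℝ × ℝ) ≃L[ℝ] (ℝ × ℝ), IsLim G U Λ ∧ Good d t Λ := by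
  obtain ⟨W, hW⟩ := exists_isLim hG U hU
  have h0 := hW.zero hG
  have hinv := fun i => hW.inv hG hU (hs i)
  obtain ⟨hdet, hadd⟩ := pexider h0 hinv (hW.ne hG hU) hd ht
  let f : (ℝ × ℝ) →+ (ℝ × ℝ) := AddMonoidHom.mk' W hadd
  have hf : Continuous f := by
    refine f.continuous_of_isBounded_nhds_zero (Metric.ball_mem_nhds 0 one_pos)
      ((Metric.isBounded_closedBall (x := (0 : ℝ × ℝ)) (r := 4)).subset ?_)
    rintro _ ⟨α, hα, rfl⟩
    exact mem_closedBall_zero_iff.2 (hW.bdd hG hU (mem_ball_zero_iff.1 hα))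
  let L : (ℝ × ℝ) →ₗ[ℝ] (ℝ × ℝ) := f.toRealLinearMap hf
  have hinj : Function.Injective L := (injective_iff_map_eq_zero L).2 (hW.ne hG hU)
  let Λ : (ℝ × ℝ) ≃L[ℝ] (ℝ × ℝ) := (LinearEquiv.ofInjectiveEndo L hinj).toContinuousLinearEquiv
  have hΛ : ∀ α, Λ α = W α := fun _ => rfl
  refine ⟨Λ, hW, fun i => ?_, ?_, hdet, ?_⟩
  · have := hinv i 0 1
    rw [zero_add, one_smul, h0] at this
    simp only [Prod.snd_zero, Prod.fst_zero, mul_zero, sub_zero] at this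
    rw [hΛ]
    linarith
  · have h1 := hW.norm hG hU
    rw [← hΛ, ← hΛ, show ((-1, -1) : ℝ × ℝ) = -(1, 1) by simp, map_neg, Prod.snd_neg] at h1
    linarith
  · obtain ⟨⟨a1, a2⟩, b1, b2⟩ := hW.cones hG hU
    have p : (W (1, 0)).1 < 0 := by
      refine lt_of_le_of_ne (by linarith) fun h => ?_
      have := hW.ne hG hU (1, 0) (Prod.ext h (by rw [Prod.snd_zero]; linarith))
      simp at this
    have q : 0 < (W (0, 1)).1 := by
      refine lt_of_le_of_ne (by linarith) fun h => ?_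
      have := hW.ne hG hU (0, 1) (Prod.ext h.symm (by rw [Prod.snd_zero]; linarith))
      simp at this
    unfold LamOK
    rw [hΛ, hΛ, abs_of_neg p, abs_of_pos q, abs_le, abs_le]
    refine ⟨⟨p, ?_, ?_⟩, q, ?_, ?_⟩ <;> linarith

theorem lin_of_good (hG : G.Ax k C) {d : Fin 3 → ℝ × ℝ} {t : Fin 3 → ℝ}
    (hs : ∀ i, SeqGen G (d i) (t i)) (hd : ∀ i, d i ≠ 0) (ht : ∀ i j, i ≠ j → t i ≠ t j)
    {Λ : (ℝ × ℝ) ≃L[ℝ] (ℝ × ℝ)} (hΛ : Good d t Λ) : G.Lin Λ := by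
  intro A ε hε
  refine (R_pos hG).and ?_
  by_contra hne
  have hnb : (atTop ⊓ 𝓟 {u : ℕ | ¬ ∀ w ∈ box 0 (A * u),
      ‖G.v w - G.R u • Λ ((w.1 : ℝ) / u, (w.2 : ℝ) / u)‖ ≤ ε * G.R u}).NeBot :=
    frequently_iff_neBot.1 (not_eventually.1 hne)
  obtain ⟨U, hU⟩ := Ultrafilter.exists_le (atTop ⊓ 𝓟 {u : ℕ | ¬ ∀ w ∈ box 0 (A * u),
      ‖G.v w - G.R u • Λ ((w.1 : ℝ) / u, (w.2 : ℝ) / u)‖ ≤ ε * G.R u})
  have hU1 : (U : Filter ℕ) ≤ atTop := hU.trans inf_le_left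
  have hU2 := le_principal_iff.1 (hU.trans inf_le_right)
  have hex : ∀ u : ℕ, ∃ w : Z2, (¬ ∀ w ∈ box 0 (A * u),
      ‖G.v w - G.R u • Λ ((w.1 : ℝ) / u, (w.2 : ℝ) / u)‖ ≤ ε * G.R u) →
      w ∈ box 0 (A * u) ∧ ε * G.R u < ‖G.v w - G.R u • Λ (pos w u)‖ := by
    intro u
    by_cases h : ∀ w ∈ box 0 (A * u),
        ‖G.v w - G.R u • Λ ((w.1 : ℝ) / u, (w.2 : ℝ) / u)‖ ≤ ε * G.R u
    · exact ⟨0, fun hh => absurd h hh⟩
    · push Not at h
      obtain ⟨w, h1, h2⟩ := h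
      exact ⟨w, fun _ => ⟨h1, h2⟩⟩
  choose w hw using hex
  obtain ⟨α, -, hα⟩ := (isCompact_closedBall (0 : ℝ × ℝ) A).ultrafilter_le_nhds
    (U.map fun u => pos (w u) u) (by
      rw [le_principal_iff, Ultrafilter.coe_map, Filter.mem_map]
      filter_upwards [hU2, hU1 (eventually_ge_atTop 1)] with u a1 a2
      exact mem_closedBall_zero_iff.2 ((mem_box_pos a2).1 (hw u a1).1))
  have hα' : Tendsto (fun u => pos (w u) u) U (𝓝 α) := hα
  obtain ⟨Λ', h1, h2⟩ := exists_good hG hs hd ht U hU1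
  rw [h2.unique ht hΛ] at h1
  have h3 := ((h1 w α hα').sub ((Λ.continuous.tendsto α).comp hα')).norm
  rw [sub_self, norm_zero] at h3
  obtain ⟨u, a1, a2, a3⟩ := ((h3.eventually (eventually_le_nhds hε)).and
    (Eventually.and hU2 (hU1 (R_pos hG)))).exists
  have a4 := (hw u a2).2
  have a5 : G.v (w u) - G.R u • Λ (pos (w u) u) =
      G.R u • ((G.R u)⁻¹ • G.v (w u) - Λ (pos (w u) u)) := by
    rw [smul_sub, smul_inv_smul₀ (ne_of_gt a3)]
  rw [a5, norm_smul, Real.norm_eq_abs, abs_of_pos a3] at a4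
  simp only [Function.comp] at a1
  nlinarith [mul_le_mul_of_nonneg_left a1 (le_of_lt a3)]

end U

end ECub
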