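import Pool.Agent.P.MP_029dcd_co.F.U.Cnt
import Pool.Agent.P.MP_029dcd_co.F.U.Det

/-! Layer U, part 5: almost every galaxy is asymptotically linear. -/

set_option autoImplicit false

namespace ECub

open CubicStab MeasureTheory Filter Topology Finset
open scoped ENNReal

namespace U

variable {G : Gal} {k : ℕ} {C : ℝ}

/-- the direction of a line of family `i` with drift `θ` -/
def dir (i : Fin 3) (θ : ℝ) : ℝ × ℝ := if i = 1 then (1, θ) else (θ, 1)

theorem dir_ne (i : Fin 3) (θ : ℝ) : dir i θ ≠ 0 := by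
  unfold dir
  split_ifs <;> simp

theorem tendsto_dir (i : Fin 3) {w : ℕ → Z2} {h θ : ℝ}
    (h1 : Tendsto (fun u => (idx i (w u) : ℝ) / u) atTop (𝓝 h))
    (h2 : Tendsto (fun u => (oth i (w u) : ℝ) / u) atTop (𝓝 (h * θ))) :
    Tendsto (fun u => pos (w u) u) atTop (𝓝 (h • dir i θ)) := by
  unfold idx at h1
  unfold oth at h2
  unfold dir
  split_ifs at h1 h2 ⊢
  · simpa [pos] using h1.prodMk_nhds h2
  · simpa [pos] using h2.prodMk_nhds h1

theorem idx_sub (i : Fin 3) (a b : Z2) : idx i (a - b) = idx i a - idx i b := by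
  unfold idx
  split_ifs <;> rfl

theorem oth_sub (i : Fin 3) (a b : Z2) : oth i (a - b) = oth i a - oth i b := by
  unfold oth
  split_ifs <;> rfl

theorem diag {P : ℕ → ℕ → Prop} (h : ∀ m, ∀ᶠ u in atTop, P m u) :
    ∃ M : ℕ → ℕ, Tendsto M atTop atTop ∧ ∀ᶠ u in atTop, P (M u) u := by
  classical
  refine ⟨fun u => Nat.findGreatest (fun m => P m u) u, tendsto_atTop.2 fun m => ?_, ?_⟩
  · filter_upwards [h m, eventually_ge_atTop m] with u h1 h2
    exact Nat.le_findGreatest h2 h1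
  · filter_upwards [h 0] with u h1
    exact Nat.findGreatest_spec (P := fun m => P m u) (Nat.zero_le u) h1

/-- near every cell there is a line with slope near `t0` and drift near `θ` -/
def Gen (G : Gal) (i : Fin 3) (θ t0 : ℝ) : Prop :=
  ∀ m : ℕ, ∀ᶠ u : ℕ in atTop, ∀ y ∈ box 0 (m * u), ∃ l : Lb, G.Can i l ∧
    |(l.1.1 : ℝ) - y.1| ≤ 1 / (m + 1) * u ∧ |(l.1.2 : ℝ) - y.2| ≤ 1 / (m + 1) * u ∧
    |G.t l - t0| ≤ 1 / (m + 1) ∧ ∀ b : ℤ, |b| ≤ m * u →
      |(oth i (G.at' l (idx i l.1 + b)).1 : ℝ) - oth i l.1 - b * θ| ≤ 1 / (m + 1) * (u + |(b : ℝ)|)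

theorem Gen.slope (hG : G.Ax k C) {i : Fin 3} {θ t0 : ℝ} (h : Gen G i θ t0) :
    |t0 - ctr i| ≤ 1 / 5 := by
  obtain ⟨u, hu⟩ := (h 9).exists
  obtain ⟨l, h1, -, -, h2, -⟩ := hu 0 (mem_box0.2 (by simp))
  have h3 := hG.slope l h1.1
  rw [h1.2.1] at h3
  rw [abs_le] at h2 h3 ⊢
  norm_num at h2
  constructor <;> linarith [h2.1, h2.2, h3.1, h3.2]

theorem slope_ne {t : Fin 3 → ℝ} (h : ∀ i, |t i - ctr i| ≤ 1 / 5) (i j : Fin 3) (hij : i ≠ j) :
    t i ≠ t j := by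
  intro e
  have h1 := abs_le.1 (h i)
  have h2 := abs_le.1 (h j)
  rw [e] at h1
  fin_cases i <;> fin_cases j <;> simp [ctr] at hij h1 h2 <;> linarith [h1.1, h1.2, h2.1, h2.2]

theorem Gen.seq (hG : G.Ax k C) {i : Fin 3} {θ t0 : ℝ} (h : Gen G i θ t0) :
    SeqGen G (dir i θ) t0 := by
  intro α s
  obtain ⟨M, hM, h1⟩ := diag h
  obtain ⟨A, hA⟩ := exists_nat_gt (max ‖α‖ |s|)
  have hb := tendsto_floor s
  have he : Tendsto (fun u => 1 / ((M u : ℝ) + 1)) atTop (𝓝 0) :=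
    tendsto_one_div_add_atTop_nhds_zero_nat.comp hM
  have h2 : ∀ᶠ u in atTop, ∃ l : Lb, G.Can i l ∧ ‖pos l.1 u - pos (fl α u) u‖ ≤ 1 / (M u + 1) ∧
      |G.t l - t0| ≤ 1 / (M u + 1) ∧
      |(oth i ((G.at' l (idx i l.1 + ⌊(u : ℝ) * s⌋)).1 - l.1) : ℝ) / u - ⌊(u : ℝ) * s⌋ / u * θ|
        ≤ 1 / (M u + 1) * (1 + |(⌊(u : ℝ) * s⌋ : ℝ) / u|) := by
    filter_upwards [h1, ev_box le_rfl (tendsto_fl α) ((le_max_left _ _).trans_lt hA),
      hM.eventually_ge_atTop A, eventually_ge_atTop 1,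
      hb.abs.eventually (eventually_le_nhds ((le_max_right _ _).trans_lt hA))]
      with u a1 a2 a3 a4 a5
    have h0 : (0 : ℝ) < u := by exact_mod_cast a4
    have a6 : ((A * u : ℕ) : ℤ) ≤ (M u * u : ℕ) := by
      exact_mod_cast Nat.mul_le_mul_right u a3
    obtain ⟨l, b1, b2, b3, b4, b5⟩ := a1 (fl α u)
      (mem_box0.2 ⟨(mem_box0.1 a2).1.trans a6, (mem_box0.1 a2).2.trans a6⟩)
    refine ⟨l, b1, ?_, b4, ?_⟩
    · rw [← pos_sub, norm_pos_le a4]
      simp only [Prod.fst_sub, Prod.snd_sub, Int.cast_sub]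
      exact ⟨b2, b3⟩
    · rw [abs_div, abs_of_pos h0, div_le_iff₀ h0] at a5
      have b6 := b5 ⌊(u : ℝ) * s⌋ (le_trans (by exact_mod_cast a5) (a6.trans_eq (by simp)))
      rw [oth_sub, div_mul_eq_mul_div, ← sub_div, abs_div, abs_div, abs_of_pos h0, div_le_iff₀ h0,
        mul_assoc, add_mul, one_mul, div_mul_cancel₀ _ h0.ne', Int.cast_sub]
      exact b6
  obtain ⟨l, hl⟩ := h2.choice
  have p1 : Tendsto (fun u => pos (l u).1 u) atTop (𝓝 α) := by
    have := (squeeze_zero_norm' (hl.mono fun u hu => hu.2.1) he).add (tendsto_fl α)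
    simpa using this
  refine ⟨l, fun u => G.at' (l u) (idx i (l u).1 + ⌊(u : ℝ) * s⌋), ?_, p1, ?_, ?_⟩
  · filter_upwards [hl] with u hu
    obtain ⟨c1, c2, -⟩ := Gal.at'_spec hG hu.1.1 (idx i (l u).1 + ⌊(u : ℝ) * s⌋)
    exact ⟨hu.1.1, c1.1, c2⟩
  · have q := tendsto_dir i (θ := θ) (h := s)
      (w := fun u => (G.at' (l u) (idx i (l u).1 + ⌊(u : ℝ) * s⌋)).1 - (l u).1)
      (hb.congr' ?_) ?_
    · simpa [pos_sub] using p1.add q
    · filter_upwards [hl] with u hu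
      obtain ⟨-, -, c3⟩ := Gal.at'_spec hG hu.1.1 (idx i (l u).1 + ⌊(u : ℝ) * s⌋)
      rw [hu.1.2.1] at c3
      rw [idx_sub, c3, add_sub_cancel_left]
    · have r := he.mul (hb.abs.const_add 1)
      rw [zero_mul] at r
      have := (squeeze_zero_norm' (hl.mono fun u hu => hu.2.2.2) r).add (hb.mul_const θ)
      simpa using this
  · have := (squeeze_zero_norm' (hl.mono fun u hu => hu.2.2.1) he).add_const t0
    simpa using this

theorem sum_tele (f : ℤ → ℝ) {a b : ℤ} (h : a ≤ b) :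
    ∑ c ∈ Ico a b, (f (c + 1) - f c) = f b - f a := by
  induction b, h using Int.leInduction with
  | base => simp
  | succ n hn ih =>
    rw [← insert_Ico_right_eq_Ico_add_one hn, sum_insert (by simp), ih]
    ring

theorem ev_disp (S : Sys) (ω : S.Ω) {i : Fin 3} {l : Lb} (hl : (S.Γ ω).Can i l) (c : ℤ) :
    S.ev (fun x : S.Ω × ℕ => (oth i ((S.Γ x.1).at' (0, x.2) 1).1 : ℝ)) ω ((S.Γ ω).at' l c) =
      (oth i ((S.Γ ω).at' l (c + 1)).1 : ℝ) - oth i ((S.Γ ω).at' l c).1 := by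
  obtain ⟨d1, d2, d3⟩ := Gal.at'_spec (S.ax ω) hl.1 c
  rw [hl.2.1] at d1 d3
  have e := at'_shift (S.ax ω) (S.ax _) (S.shift ω ((S.Γ ω).at' l c).1)
    (j := ((S.Γ ω).at' l c).2) d1 1
  rw [d3, ← Gal.at'_congr (S.ax ω) hl.1 d1.1 d2] at e
  rw [e, oth_add, Int.cast_add, add_sub_cancel_left]
  rfl

theorem ae_gen (S : Sys) (hS : S.toDyn.Erg) (hT : S.μ {ω | (S.Γ ω).tp 0 = true} ≠ 0)
    (i : Fin 3) : ∃ θ t0 : ℝ, ∀ᵐ ω ∂S.μ, Gen (S.Γ ω) i θ t0 := by
  obtain ⟨hF, hi⟩ := S.disp_integrable i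
  obtain ⟨Fb, hFb, -, -, -, hlim⟩ := S.line_et i _ hF hi
  have hφ : Measurable fun x => (Fb x, S.sl x) := hFb.prodMk S.measurable_sl
  have h0 : (S.mh i).map (fun x => (Fb x, S.sl x)) Set.univ ≠ 0 := by
    rw [Measure.map_apply hφ MeasurableSet.univ, Set.preimage_univ]
    intro h
    have h1 := Measure.le_iff'.1 (S.map_tx_le i) Set.univ
    rw [h, Measure.map_apply (S.measurable_tx i) MeasurableSet.univ, Set.preimage_univ,
      Measure.restrict_apply_univ] at h1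
    exact hT (le_zero_iff.1 h1)
  obtain ⟨p, -, hp⟩ := exists_mem_forall_mem_nhdsWithin_pos_measure h0
  let D : ℕ → ℕ → Set (S.Ω × ℕ) := fun m n0 => {x | (Fb x, S.sl x) ∈ Metric.closedBall p
    (1 / (m + 1)) ∧ ∀ n : ℕ, n0 ≤ n → ∀ b : ℤ, |b| ≤ m * n →
      |(oth i ((S.Γ x.1).at' (0, x.2) b).1 : ℝ) - b * Fb x| ≤ 1 / (m + 1) * n}
  have hD : ∀ m n0, MeasurableSet (D m n0) := fun m n0 => by
    refine (hφ measurableSet_closedBall).inter (measurableSet_setOfPred.2 (Measurable.forall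
      fun n => Measurable.imp measurable_const (Measurable.forall fun b =>
        Measurable.imp measurable_const (measurableSet_setOfPred.1
          (measurableSet_le ?_ measurable_const)))))
    refine (Measurable.sub ?_ (hFb.const_mul _)).abs
    exact measurable_from_prod_countable_left fun j =>
      (measurable_of_countable fun l : Lb => (oth i l.1 : ℝ)).comp (meas_at' S (0, j) b)
  have hpos : ∀ m, ∃ n0, S.mh i (D m n0) ≠ 0 := by
    intro m
    by_contra hne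
    push Not at hne
    have he : (0 : ℝ) < 1 / (m + 1) := by positivity
    have h1 := hp _ (mem_nhdsWithin_of_mem_nhds (Metric.closedBall_mem_nhds p he))
    rw [Measure.map_apply hφ measurableSet_closedBall] at h1
    refine h1.ne' (measure_mono_null_ae ?_ (measure_iUnion_null hne))
    filter_upwards [ae_mh S i hlim] with x hx hx'
    obtain ⟨n0, hn0⟩ := eventually_atTop.1 (hx.2 (0, x.2) hx.1.1 hx.1.2.1 m _ he)
    refine Set.mem_iUnion.2 ⟨n0, hx', fun n hn b hb => ?_⟩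
    have e0 : (S.Γ x.1).at' (0, x.2) 0 = (0, x.2) := by
      have := Gal.at'_self (S.ax x.1) hx.1
      rwa [idx_zero] at this
    have e1 : S.ev Fb x.1 (0, x.2) = Fb x := by
      unfold Sys.ev
      rw [S.T_zero]
    have e2 := fun a1 a2 (h : a1 ≤ a2) =>
      sum_tele (fun c => (oth i ((S.Γ x.1).at' (0, x.2) c).1 : ℝ)) h
    have hn1 := hn0 n hn
    simp only [ev_disp S x.1 hx.1, e1] at hn1
    rw [abs_le] at hb
    have z : (0 : ℤ) ≤ m * n := by positivity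
    rcases le_total 0 b with h | h
    · have := hn1 0 b (by linarith) h hb.2
      rwa [e2 _ _ h, e0, oth_zero, Int.cast_zero, sub_zero, sub_zero] at this
    · have := hn1 b 0 hb.1 h z
      rw [e2 _ _ h, e0, oth_zero, Int.cast_zero, zero_sub, zero_sub, Int.cast_neg] at this
      rw [← abs_neg]
      refine le_of_eq_of_le (congrArg abs ?_) this
      ring
  choose n0 hn0 using hpos
  refine ⟨p.1, p.2, ?_⟩
  filter_upwards [ae_all_iff.2 fun m => exists_near S hS i (hD m (n0 m)) (hn0 m)] with ω hω m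
  have he : (0 : ℝ) < 1 / (m + 1) := by positivity
  filter_upwards [hω m m _ he ((div_le_one (by positivity)).2 (by simp)),
    eventually_ge_atTop (n0 m)] with u h1 h2 y hy
  obtain ⟨l, a1, ⟨a2, a3⟩, a4, a5⟩ := h1 y hy
  rw [Metric.mem_closedBall, Prod.dist_eq, max_le_iff, Real.dist_eq, Real.dist_eq] at a2
  have hs := S.shift ω l.1
  refine ⟨l, a1, a4, a5, ?_, fun b hb => ?_⟩
  · have := a2.2
    unfold Sys.sl at this
    rwa [hs.t, add_zero] at this
  · rw [at'_shift (S.ax ω) (S.ax _) hs (j := l.2) a1 b, oth_add, Int.cast_add, add_sub_cancel_left]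
    have b1 := a3 u h2 b hb
    have b2 : |(b : ℝ) * (Fb (S.T l.1 ω, l.2) - p.1)| ≤ |(b : ℝ)| * (1 / (m + 1)) := by
      rw [abs_mul]
      exact mul_le_mul_of_nonneg_left a2.1 (abs_nonneg _)
    rw [abs_le] at b1 b2 ⊢
    constructor <;> linarith [b1.1, b1.2, b2.1, b2.2]

end U

/-- the vertex map of almost every galaxy is asymptotically linear -/
theorem Sys.exists_lin (S : Sys) (hS : S.toDyn.Erg)
    (hT : S.μ {ω | (S.Γ ω).tp 0 = true} ≠ 0) : ∃ Λ, S.Lin Λ := by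
  choose θ t h using U.ae_gen S hS hT
  have h1 := ae_all_iff.2 h
  obtain ⟨ω0, h0⟩ := h1.exists
  have ht := U.slope_ne fun i => (h0 i).slope (S.ax ω0)
  obtain ⟨𝒰, h𝒰⟩ := Ultrafilter.exists_le (atTop : Filter ℕ)
  obtain ⟨Λ, -, hΛ⟩ := U.exists_good (S.ax ω0) (fun i => (h0 i).seq (S.ax ω0))
    (fun i => U.dir_ne i (θ i)) ht 𝒰 h𝒰
  refine ⟨Λ, hΛ.2.2.2.1, hΛ.2.2.2.2, ?_⟩
  filter_upwards [h1] with ω hω
  exact U.lin_of_good (S.ax ω) (fun i => (hω i).seq (S.ax ω)) (fun i => U.dir_ne i (θ i)) ht hΛ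

end ECub
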