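import Pool.Agent.P.MP_029dcd_co.F.U.Bas

/-! Layer U, part 2: location lemmas for asymptotically linear galaxies. -/

set_option autoImplicit false

namespace ECub

open CubicStab MeasureTheory Filter Topology Finset
open scoped ENNReal

namespace U

variable {G : Gal} {k : ℕ} {C : ℝ} {Λ : (ℝ × ℝ) ≃L[ℝ] (ℝ × ℝ)}

theorem lam_apply (Λ : (ℝ × ℝ) ≃L[ℝ] (ℝ × ℝ)) (a b : ℝ) :
    Λ (a, b) = a • Λ (1, 0) + b • Λ (0, 1) := by
  rw [← map_smul, ← map_smul, ← map_add]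
  simp

theorem ctr_bounds {i : Fin 3} {t : ℝ} (h : |t - ctr i| ≤ 1 / 100) :
    |t| ≤ 2 ∧ (i = 1 → t ≤ -(99 / 100)) ∧ (i ≠ 1 → -(1 / 100) ≤ t) := by
  rw [abs_le] at h
  fin_cases i <;> simp [ctr] at h ⊢ <;> refine ⟨abs_le.2 ⟨?_, ?_⟩, ?_⟩ <;> linarith [h.1, h.2]

theorem R_est {A u : ℕ} {ε : ℝ} (h : ∀ w ∈ box 0 (A * u),
    ‖G.v w - G.R u • Λ ((w.1 : ℝ) / u, (w.2 : ℝ) / u)‖ ≤ ε * G.R u) {u' : ℕ} (hu' : u' ≤ A * u) :
    |G.R u' - (u' : ℝ) / u * G.R u * (2 * (Λ (1, 1)).2)| ≤ 2 * (ε * G.R u) := by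
  have hu'' : (u' : ℤ) ≤ (A * u : ℕ) := by exact_mod_cast hu'
  have h1 := (norm_snd_le _).trans (h ((u' : ℤ), (u' : ℤ)) (by rw [mem_box0]; simpa using hu''))
  have h2 := (norm_snd_le _).trans (h (-(u' : ℤ), -(u' : ℤ)) (by rw [mem_box0]; simpa using hu''))
  have e : ∀ r : ℝ, (Λ (r, r)).2 = r * (Λ (1, 1)).2 := fun r => by
    rw [show ((r, r) : ℝ × ℝ) = r • (1, 1) by simp, map_smul]
    rfl
  rw [Prod.snd_sub, Prod.smul_snd, e, smul_eq_mul, Real.norm_eq_abs, abs_le] at h1 h2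
  simp only [Int.cast_neg, Int.cast_natCast, neg_div] at h1 h2
  rw [abs_le]
  unfold Gal.R at *
  constructor <;> linarith [h1.1, h1.2, h2.1, h2.2]

theorem half (hL : G.Lin Λ) : 2 * (Λ (1, 1)).2 = 1 := by
  by_contra hne
  have hp : 0 < |1 - 2 * (Λ (1, 1)).2| := abs_pos.2 (sub_ne_zero.2 (Ne.symm hne))
  obtain ⟨u, ⟨h0, h1⟩, hu⟩ := ((hL 1 _ (div_pos hp (by norm_num : (0 : ℝ) < 4))).and
    (eventually_ge_atTop 1)).exists
  have h2 := R_est h1 (u' := u) (by omega)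
  have h3 : (u : ℝ) ≠ 0 := by positivity
  rw [div_self h3, one_mul, show G.R u - G.R u * (2 * (Λ (1, 1)).2) =
    G.R u * (1 - 2 * (Λ (1, 1)).2) by ring, abs_mul, abs_of_pos h0] at h2
  nlinarith

/-- the supremum norm of a cell -/
def nrm (w : Z2) : ℕ := max w.1.natAbs w.2.natAbs

theorem mem_box_nrm {w : Z2} {u : ℕ} : w ∈ box 0 u ↔ nrm w ≤ u := by
  rw [mem_box0, Int.abs_eq_natAbs, Int.abs_eq_natAbs, nrm]
  omega

theorem norm_pos' {w : Z2} (h : 1 ≤ nrm w) :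
    ‖(((w.1 : ℝ) / nrm w, (w.2 : ℝ) / nrm w) : ℝ × ℝ)‖ = 1 := by
  have h0 : (0 : ℝ) < nrm w := by exact_mod_cast h
  rw [Prod.norm_def, Real.norm_eq_abs, Real.norm_eq_abs, abs_div, abs_div, abs_of_pos h0,
    max_div_div_right h0.le, div_eq_one_iff_eq h0.ne', nrm]
  simp [Nat.cast_natAbs]

theorem cs_le (hG : G.Ax k C) (A : ℕ) {ε : ℝ} (hε : 0 < ε) :
    ∀ᶠ u : ℕ in atTop, ∀ w ∈ box 0 (A * u), G.cs w ≤ ε * G.R u := by
  obtain ⟨e, he, h⟩ := equi hG A hε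
  filter_upwards [h, (tendsto_natCast_atTop_atTop.const_mul_atTop he).eventually_ge_atTop 1]
    with u hu h1 w hw
  have h2 := hu w hw (w - (1, 1)) (by simpa using h1) (by simpa using h1)
  rw [norm_sub_rev] at h2
  exact (snd_le_norm _).trans h2

end U

theorem rho_bounds {Λ : (ℝ × ℝ) ≃L[ℝ] (ℝ × ℝ)} (hΛ : LamOK Λ) :
    ∃ r1 r2 : ℝ, 0 < r1 ∧ ∀ i t, |t - ctr i| ≤ 1 / 100 → r1 ≤ rho Λ i t ∧ rho Λ i t ≤ r2 := by
  obtain ⟨⟨p1, p2⟩, q1, q2⟩ := hΛ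
  rw [abs_of_neg p1, abs_le] at p2
  rw [abs_of_pos q1, abs_le] at q2
  set P := Λ (1, 0) with hP
  set Q := Λ (0, 1) with hQ
  have hP2 : 0 < P.2 := by linarith [p2.1]
  have hQ2 : 0 < Q.2 := by linarith [q2.1]
  have hΔ : 0 < -P.1 * Q.2 + Q.1 * P.2 := add_pos (mul_pos (by linarith) hQ2) (mul_pos q1 hP2)
  refine ⟨min (-P.1) Q.1 / 2 / (-P.1 * Q.2 + Q.1 * P.2),
    ‖(Λ.symm : (ℝ × ℝ) →L[ℝ] (ℝ × ℝ))‖ * 2,
    div_pos (half_pos (lt_min (by linarith) q1)) hΔ, fun i t ht => ⟨?_, ?_⟩⟩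
  · obtain ⟨-, t1, t2⟩ := U.ctr_bounds ht
    have h := U.lam_apply Λ (Λ.symm (1, t)).1 (Λ.symm (1, t)).2
    rw [Prod.mk.eta, ContinuousLinearEquiv.apply_symm_apply, ← hP, ← hQ, Prod.ext_iff] at h
    simp only [Prod.fst_add, Prod.snd_add, Prod.smul_fst, Prod.smul_snd, smul_eq_mul] at h
    obtain ⟨h1, h2⟩ := h
    have m1 := min_le_left (-P.1) Q.1
    have m2 := min_le_right (-P.1) Q.1
    rw [div_le_iff₀ hΔ]
    unfold rho
    split_ifs with hi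
    · have e : -(Λ.symm (1, t)).1 * (-P.1 * Q.2 + Q.1 * P.2) = Q.2 - Q.1 * t := by
        linear_combination Q.1 * h2 - Q.2 * h1
      have := mul_le_mul_of_nonneg_right (neg_le_abs (Λ.symm (1, t)).1) hΔ.le
      have := t1 hi
      nlinarith [q2.1]
    · have e : (Λ.symm (1, t)).2 * (-P.1 * Q.2 + Q.1 * P.2) = P.2 - P.1 * t := by
        linear_combination P.1 * h2 - P.2 * h1
      have := mul_le_mul_of_nonneg_right (le_abs_self (Λ.symm (1, t)).2) hΔ.le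
      have := t2 hi
      nlinarith [p2.1]
  · have h1 : ‖((1, t) : ℝ × ℝ)‖ ≤ 2 := by
      rw [Prod.norm_def, max_le_iff]
      exact ⟨by simp, (U.ctr_bounds ht).1⟩
    have h2 : ‖Λ.symm (1, t)‖ ≤ ‖(Λ.symm : (ℝ × ℝ) →L[ℝ] (ℝ × ℝ))‖ * 2 :=
      (Λ.symm : (ℝ × ℝ) →L[ℝ] (ℝ × ℝ)).le_opNorm_of_le h1
    unfold rho
    split_ifs
    · exact (norm_fst_le _).trans h2
    · exact (norm_snd_le _).trans h2

namespace Gal

variable {G : Gal} {k : ℕ} {C : ℝ} {Λ : (ℝ × ℝ) ≃L[ℝ] (ℝ × ℝ)}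

theorem R_tendsto (hG : G.Ax k C) (hΛ : LamOK Λ) (hL : G.Lin Λ) : Tendsto G.R atTop atTop := by
  have _ := hΛ
  have _ := hL
  exact U.R_atTop hG

theorem R_ratio (hG : G.Ax k C) (hΛ : LamOK Λ) (hL : G.Lin Λ) (A : ℕ) (ε : ℝ) (hε : 0 < ε) :
    ∀ᶠ u : ℕ in atTop, ∀ u' : ℕ, u' ≤ A * u → |G.R u' - (u' : ℝ) / u * G.R u| ≤ ε * G.R u := by
  have _ := hΛ
  have _ := hG
  filter_upwards [hL A (ε / 2) (half_pos hε)] with u hu u' hu'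
  have h := U.R_est hu.2 hu'
  rw [U.half hL, mul_one] at h
  linarith

theorem cs_small (hG : G.Ax k C) (hL : G.Lin Λ) (A : ℕ) (ε : ℝ) (hε : 0 < ε) :
    ∀ᶠ u : ℕ in atTop, ∀ w ∈ box 0 (A * u), 0 ≤ G.cs w ∧ G.cs w ≤ ε * G.R u := by
  have _ := hL
  filter_upwards [U.cs_le hG A hε] with u hu w hw
  exact ⟨U.cs_nonneg hG w, hu w hw⟩

end Gal

namespace U

variable {G : Gal} {k : ℕ} {C : ℝ} {Λ : (ℝ × ℝ) ≃L[ℝ] (ℝ × ℝ)}

/-- linearity at the scale of a far cell -/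
theorem far (hG : G.Ax k C) (hΛ : LamOK Λ) (hL : G.Lin Λ) {ε : ℝ} (hε : 0 < ε) :
    ∀ᶠ u : ℕ in atTop, ∀ w : Z2, u ≤ nrm w → 1 ≤ nrm w ∧ 0 < G.R (nrm w) ∧
      ‖G.v w - G.R (nrm w) • Λ ((w.1 : ℝ) / nrm w, (w.2 : ℝ) / nrm w)‖ ≤ ε * G.R (nrm w) ∧
      G.cs w ≤ ε * G.R (nrm w) ∧ G.R u ≤ ((u : ℝ) / nrm w + ε) * G.R (nrm w) := by
  obtain ⟨u0, h⟩ := eventually_atTop.1 (((hL 1 ε hε).and (cs_le hG 1 hε)).and
    ((Gal.R_ratio hG hΛ hL 1 ε hε).and (eventually_ge_atTop 1)))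
  filter_upwards [eventually_ge_atTop u0] with u hu w hw
  obtain ⟨⟨⟨h1, h2⟩, h3⟩, h4, h5⟩ := h _ (hu.trans hw)
  have hw' : w ∈ box 0 (1 * nrm w) := mem_box_nrm.2 (by omega)
  refine ⟨h5, h1, h2 w hw', h3 w hw', ?_⟩
  have := (abs_le.1 (h4 u (by omega))).2
  linarith

theorem phi_lower (hΛ : LamOK Λ) : ∃ γ K : ℝ, 0 < γ ∧ 0 ≤ K ∧ ∀ (i : Fin 3) (t : ℝ),
    |t - ctr i| ≤ 1 / 100 → ∀ a b : ℝ, γ * |if i = 1 then b else a| - K * |if i = 1 then a else b| ≤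
      |t * (Λ (a, b)).1 - (Λ (a, b)).2| := by
  obtain ⟨⟨p1, p2⟩, q1, q2⟩ := hΛ
  rw [abs_of_neg p1, abs_le] at p2
  rw [abs_of_pos q1, abs_le] at q2
  set P := Λ (1, 0) with hP
  set Q := Λ (0, 1) with hQ
  have m1 := min_le_left (-P.1) Q.1
  have m2 := min_le_right (-P.1) Q.1
  refine ⟨min (-P.1) Q.1 / 2, 4 * (-P.1 + Q.1), half_pos (lt_min (by linarith) q1), by linarith,
    fun i t ht a b => ?_⟩
  obtain ⟨t0, t1, t2⟩ := ctr_bounds ht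
  rw [abs_le] at t0
  have e : t * (Λ (a, b)).1 - (Λ (a, b)).2 = a * (t * P.1 - P.2) + b * (t * Q.1 - Q.2) := by
    rw [lam_apply, ← hP, ← hQ]
    simp only [Prod.fst_add, Prod.snd_add, Prod.smul_fst, Prod.smul_snd, smul_eq_mul]
    ring
  have u1 : |t * P.1 - P.2| ≤ 4 * (-P.1 + Q.1) := by
    rw [abs_le]
    constructor <;> nlinarith [p2.1, p2.2, t0.1, t0.2]
  have u2 : |t * Q.1 - Q.2| ≤ 4 * (-P.1 + Q.1) := by
    rw [abs_le]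
    constructor <;> nlinarith [q2.1, q2.2, t0.1, t0.2]
  rw [e]
  split_ifs with hi
  · have l1 : min (-P.1) Q.1 / 2 ≤ |t * Q.1 - Q.2| :=
      le_trans (by nlinarith [q2.1, t1 hi]) (neg_le_abs _)
    have h1 := abs_sub_abs_le_abs_add (b * (t * Q.1 - Q.2)) (a * (t * P.1 - P.2))
    rw [abs_mul, abs_mul, add_comm] at h1
    nlinarith [mul_le_mul_of_nonneg_left l1 (abs_nonneg b),
      mul_le_mul_of_nonneg_left u1 (abs_nonneg a)]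
  · have l1 : min (-P.1) Q.1 / 2 ≤ |t * P.1 - P.2| :=
      le_trans (by nlinarith [p2.1, t2 hi]) (neg_le_abs _)
    have h1 := abs_sub_abs_le_abs_add (a * (t * P.1 - P.2)) (b * (t * Q.1 - Q.2))
    rw [abs_mul, abs_mul] at h1
    nlinarith [mul_le_mul_of_nonneg_left l1 (abs_nonneg a),
      mul_le_mul_of_nonneg_left u2 (abs_nonneg b)]

theorem line_est (hG : G.Ax k C) {l : Lb} (hl : G.valid l) {p : ℝ × ℝ} {r e : ℝ} (hr : 0 ≤ r)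
    (h1 : ‖G.v l.1 - r • p‖ ≤ e) (h2 : G.cs l.1 ≤ e) :
    |G.t l * p.1 - p.2| * r ≤ |G.s l| + 9 * e := by
  have a1 := (norm_fst_le _).trans h1
  have a2 := (norm_snd_le _).trans h1
  simp only [Prod.fst_sub, Prod.snd_sub, Prod.smul_fst, Prod.smul_snd, smul_eq_mul,
    Real.norm_eq_abs] at a1 a2
  have a3 := hG.near l hl
  have a4 := (ctr_bounds (hG.slope l hl)).1
  have a5 : |G.t l * ((G.v l.1).1 - r * p.1)| ≤ 2 * e := by
    rw [abs_mul]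
    exact mul_le_mul a4 a1 (abs_nonneg _) (by norm_num)
  have a6 := le_abs_self (G.s l)
  have a7 := neg_abs_le (G.s l)
  rw [← abs_of_nonneg hr, ← abs_mul]
  rw [abs_le] at a2 a3 a5 ⊢
  constructor <;> nlinarith [a2.1, a2.2, a3.1, a3.2, a5.1, a5.2]

theorem vis_core (hΛ : LamOK Λ) : ∃ γ K : ℝ, 0 < γ ∧ 0 ≤ K ∧ ∀ {G : Gal} {k : ℕ} {C : ℝ},
    G.Ax k C → ∀ l, G.valid l → ∀ e : ℝ, (idx (G.fam l) l.1).natAbs < nrm l.1 →
      ‖G.v l.1 - G.R (nrm l.1) • Λ ((l.1.1 : ℝ) / nrm l.1, (l.1.2 : ℝ) / nrm l.1)‖ ≤ e →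
      G.cs l.1 ≤ e → (γ - K * (|(idx (G.fam l) l.1 : ℝ)| / nrm l.1)) * G.R (nrm l.1) ≤
        |G.s l| + 9 * e := by
  obtain ⟨γ, K, hγ, hK, h⟩ := phi_lower hΛ
  refine ⟨γ, K, hγ, hK, fun {G k C} hG l hl e hn h1 h2 => ?_⟩
  refine le_trans (mul_le_mul_of_nonneg_right ?_ (R_nonneg hG _))
    (line_est hG hl (R_nonneg hG _) h1 h2)
  refine le_trans (le_of_eq ?_) (h _ _ (hG.slope l hl) _ _)
  have h0 : (0 : ℝ) < nrm l.1 := by exact_mod_cast (Nat.zero_le _).trans_lt hn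
  unfold idx at hn ⊢
  split_ifs at hn ⊢ with hi
  · have : nrm l.1 = l.1.2.natAbs := by unfold nrm at hn ⊢; omega
    have h3 : |(l.1.2 : ℝ)| = nrm l.1 := by rw [this]; simp [Nat.cast_natAbs]
    rw [abs_div, abs_div, abs_of_pos h0, h3, div_self h0.ne', mul_one]
  · have : nrm l.1 = l.1.1.natAbs := by unfold nrm at hn ⊢; omega
    have h3 : |(l.1.1 : ℝ)| = nrm l.1 := by rw [this]; simp [Nat.cast_natAbs]
    rw [abs_div, abs_div, abs_of_pos h0, h3, div_self h0.ne', mul_one]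

theorem ratio_le {A u n : ℕ} (hA : 1 ≤ A) (h : A * u < n) : (u : ℝ) / n ≤ 1 / A := by
  have h1 : (A : ℝ) * u < n := by exact_mod_cast h
  have h2 : (0 : ℝ) < A := by exact_mod_cast hA
  have h3 : (0 : ℝ) < n := lt_of_le_of_lt (by positivity) h1
  rw [div_le_div_iff₀ h3 h2]
  linarith

theorem exists_A {x : ℝ} (hx : 0 ≤ x) {γ : ℝ} (hγ : 0 < γ) (A' : ℕ) :
    ∃ A : ℕ, 1 ≤ A ∧ A' ≤ A ∧ x * (1 / (A : ℝ)) ≤ γ := by
  obtain ⟨n, hn⟩ := exists_nat_ge (x / γ)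
  refine ⟨n + A' + 1, by omega, by omega, ?_⟩
  have _ := hx
  rw [mul_one_div, div_le_iff₀ (by positivity)]
  rw [div_le_iff₀ hγ] at hn
  push_cast
  nlinarith [(Nat.cast_nonneg A' : (0 : ℝ) ≤ A')]

theorem finite_valid (G : Gal) (u : ℕ) : {l : Lb | G.valid l ∧ l.1 ∈ box 0 u}.Finite := by
  refine (((box 0 u).biUnion fun w => (range (G.g w)).image fun j => (w, j)).finite_toSet).subset ?_
  rintro l ⟨h1, h2⟩
  simp only [coe_biUnion, Set.mem_iUnion, mem_coe, mem_image, mem_range]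
  exact ⟨l.1, h2, l.2, h1, rfl⟩

end U

namespace Gal

variable {G : Gal} {k : ℕ} {C : ℝ} {Λ : (ℝ × ℝ) ≃L[ℝ] (ℝ × ℝ)}

/-- lines that visit a box have small offsets -/
theorem off_le (hΛ : LamOK Λ) (A : ℕ) : ∃ B : ℝ, 0 < B ∧ ∀ {G : Gal} {k : ℕ} {C : ℝ},
    G.Ax k C → G.Lin Λ → ∀ᶠ u : ℕ in atTop, ∀ l, G.valid l → l.1 ∈ box 0 (A * u) →
      |G.s l| ≤ B * G.R u := by
  refine ⟨12 * (A + 1) + 6, by positivity, fun {G k C} hG hL => ?_⟩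
  filter_upwards [R_ratio hG hΛ hL A 1 one_pos, U.cs_le hG A one_pos, eventually_ge_atTop 1]
    with u h1 h2 hu l hl hw
  have h3 : (u : ℝ) ≠ 0 := by positivity
  have a1 := (abs_le.1 (h1 (A * u) le_rfl)).2
  rw [Nat.cast_mul, mul_div_assoc, div_self h3] at a1
  have a2 := U.norm_v_le hG hw
  have a3 := (norm_fst_le _).trans a2
  have a4 := (norm_snd_le _).trans a2
  rw [Real.norm_eq_abs] at a3 a4
  have a5 := hG.near l hl
  have a6 : |G.t l * (G.v l.1).1| ≤ 2 * (4 * G.R (A * u)) := by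
    rw [abs_mul]
    exact mul_le_mul (U.ctr_bounds (hG.slope l hl)).1 a3 (abs_nonneg _) (by norm_num)
  have a7 := h2 _ hw
  rw [abs_le] at a4 a5 a6 ⊢
  constructor <;> linarith [a4.1, a4.2, a5.1, a5.2, a6.1, a6.2]

/-- location of the canonical cells of lines with small offsets -/
theorem vis (hΛ : LamOK Λ) (B : ℝ) (A' : ℕ) : ∃ A : ℕ, ∀ {G : Gal} {k : ℕ} {C : ℝ},
    G.Ax k C → G.Lin Λ → ∀ᶠ u : ℕ in atTop, ∀ l, G.valid l → |G.s l| ≤ B * G.R u →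
      ∀ b : ℤ, |b| ≤ (A' : ℤ) * u → (G.at' l b).1 ∈ box 0 (A * u) := by
  obtain ⟨γ, K, hγ, hK, h⟩ := U.vis_core hΛ
  obtain ⟨A, hA1, hA2, hA3⟩ := U.exists_A (x := K * A' + |B|) (by positivity) (half_pos hγ) A'
  refine ⟨A, fun {G k C} hG hL => ?_⟩
  have hε : 0 < γ / (4 * (9 + |B|)) := by positivity
  filter_upwards [U.far hG hΛ hL hε] with u hu l hl hs b hb
  obtain ⟨c1, c2, c3⟩ := at'_spec hG hl b
  rw [U.mem_box_nrm]
  by_contra hn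
  rw [not_le] at hn
  set l' := G.at' l b
  have hu1 : u ≤ U.nrm l'.1 := (Nat.le_mul_of_pos_left u hA1).trans hn.le
  obtain ⟨f1, f2, f3, f4, f5⟩ := hu l'.1 hu1
  have hb' : b.natAbs ≤ A' * u := by
    rw [Int.abs_eq_natAbs] at hb
    exact_mod_cast hb
  have hAA := Nat.mul_le_mul_right u hA2
  have g := h hG l' c1.1 _ (by rw [c1.2.1, c3]; omega) f3 f4
  rw [c1.2.1, c3, ← hG.same_s l l' hl c1.1 c2] at g
  have r := U.ratio_le hA1 hn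
  have h0 : (0 : ℝ) < U.nrm l'.1 := by exact_mod_cast f1
  have r2 : |(b : ℝ)| / U.nrm l'.1 ≤ A' * (1 / (A : ℝ)) := by
    have : |(b : ℝ)| ≤ A' * u := by exact_mod_cast hb
    calc |(b : ℝ)| / U.nrm l'.1 ≤ A' * u / U.nrm l'.1 := by gcongr
      _ = A' * (u / U.nrm l'.1) := by ring
      _ ≤ _ := by gcongr
  have s1 : |G.s l| ≤ |B| * ((1 / (A : ℝ) + γ / (4 * (9 + |B|))) * G.R (U.nrm l'.1)) :=
    calc |G.s l| ≤ |B| * G.R u :=
          hs.trans (mul_le_mul_of_nonneg_right (le_abs_self B) (U.R_nonneg hG u))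
      _ ≤ _ := mul_le_mul_of_nonneg_left (f5.trans (by gcongr)) (abs_nonneg B)
  have s2 : (9 + |B|) * (γ / (4 * (9 + |B|))) = γ / 4 := by field_simp
  have s3 := mul_le_mul_of_nonneg_left r2 hK
  have s4 : γ - K * (|(b : ℝ)| / U.nrm l'.1) ≤
      |B| * (1 / (A : ℝ) + γ / (4 * (9 + |B|))) + 9 * (γ / (4 * (9 + |B|))) :=
    le_of_mul_le_mul_right (by linarith) f2
  linarith

theorem vis_small (hΛ : LamOK Λ) : ∃ δ : ℝ, 0 < δ ∧ ∀ {G : Gal} {k : ℕ} {C : ℝ},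
    G.Ax k C → G.Lin Λ → ∀ᶠ u : ℕ in atTop, ∀ l, G.valid l → |G.s l| ≤ δ * G.R u →
      (G.rep l).1 ∈ box 0 u := by
  obtain ⟨γ, K, hγ, hK, h⟩ := U.vis_core hΛ
  refine ⟨γ / 2, half_pos hγ, fun {G k C} hG hL => ?_⟩
  have hε : 0 < γ / 100 := by positivity
  filter_upwards [U.far hG hΛ hL hε] with u hu l hl hs
  obtain ⟨c1, c2, c3⟩ := at'_spec hG hl 0
  rw [U.mem_box_nrm]
  by_contra hn
  rw [not_le] at hn
  unfold rep at hn
  set l' := G.at' l 0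
  obtain ⟨f1, f2, f3, f4, -⟩ := hu l'.1 hn.le
  have g := h hG l' c1.1 _ (by rw [c1.2.1, c3]; exact f1) f3 f4
  rw [c1.2.1, c3, ← hG.same_s l l' hl c1.1 c2] at g
  simp only [Int.cast_zero, abs_zero, zero_div, mul_zero, sub_zero] at g
  have := mul_le_mul_of_nonneg_left (U.R_mono hG hn.le) (half_pos hγ).le
  nlinarith [mul_pos hγ f2]

/-- location of the crossing cell of two lines whose crossing point is not far -/
theorem loc_cr (hΛ : LamOK Λ) (B : ℝ) : ∃ A : ℕ, ∀ {G : Gal} {k : ℕ} {C : ℝ},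
    G.Ax k C → G.Lin Λ → ∀ᶠ u : ℕ in atTop, ∀ w j j', G.cr w j j' = true →
      G.t (w, j) ≠ G.t (w, j') → |G.s (w, j)| ≤ B * G.R u →
      |G.s (w, j') - G.s (w, j)| ≤ B * G.R u * |G.t (w, j) - G.t (w, j')| →
      w ∈ box 0 (A * u) := by
  obtain ⟨M, hM, hM'⟩ : ∃ M : ℝ, 0 < M ∧ ∀ p : ℝ × ℝ, ‖p‖ ≤ M * ‖Λ p‖ := by
    refine ⟨‖(Λ.symm : (ℝ × ℝ) →L[ℝ] (ℝ × ℝ))‖ + 1, by positivity, fun p => ?_⟩
    have := (Λ.symm : (ℝ × ℝ) →L[ℝ] (ℝ × ℝ)).le_opNorm (Λ p)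
    simp only [ContinuousLinearEquiv.coe_coe, ContinuousLinearEquiv.symm_apply_apply] at this
    nlinarith [norm_nonneg (Λ p)]
  obtain ⟨A, hA1, -, hA3⟩ := U.exists_A (x := M * (3 * |B|)) (by positivity) (half_pos one_pos) 0
  refine ⟨A, fun {G k C} hG hL => ?_⟩
  have hε : 0 < 1 / (4 * (M * (3 * |B| + 11))) := by positivity
  filter_upwards [U.far hG hΛ hL hε] with u hu w j j' hc ht hs hs'
  rw [U.mem_box_nrm]
  by_contra hn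
  rw [not_le] at hn
  obtain ⟨f1, f2, f3, f4, f5⟩ := hu w ((Nat.le_mul_of_pos_left u hA1).trans hn.le)
  set ε := 1 / (4 * (M * (3 * |B| + 11))) with hεd
  have hv := (hG.cr_valid w j j' hc).1
  have hB : B * G.R u ≤ |B| * G.R u :=
    mul_le_mul_of_nonneg_right (le_abs_self B) (U.R_nonneg hG u)
  have hcs := U.cs_nonneg hG w
  have hΔ : 0 < |G.t (w, j) - G.t (w, j')| := abs_pos.2 (sub_ne_zero.2 ht)
  have x1 : |(G.v w).1| ≤ |B| * G.R u + 2 * G.cs w := by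
    have a1 := hG.near_cr w j j' hc
    have a2 := abs_sub_abs_le_abs_sub ((G.t (w, j) - G.t (w, j')) * (G.v w).1)
      (G.s (w, j') - G.s (w, j))
    rw [abs_sub_comm] at a1
    rw [abs_mul] at a2
    refine le_of_mul_le_mul_right ?_ hΔ
    nlinarith [mul_le_mul_of_nonneg_right hB hΔ.le]
  have x2 : |(G.v w).2| ≤ 3 * (|B| * G.R u) + 10 * G.cs w := by
    have a1 := hG.near (w, j) hv
    have a2 : |G.t (w, j) * (G.v w).1| ≤ 2 * (|B| * G.R u + 2 * G.cs w) := by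
      rw [abs_mul]
      exact mul_le_mul (U.ctr_bounds (hG.slope _ hv)).1 x1 (abs_nonneg _) (by norm_num)
    have a3 := hs.trans hB
    simp only at a1
    rw [abs_le] at a1 a2 a3 ⊢
    constructor <;> linarith [a1.1, a1.2, a2.1, a2.2, a3.1, a3.2]
  have hBR : 0 ≤ |B| * G.R u := mul_nonneg (abs_nonneg B) (U.R_nonneg hG u)
  have x3 : ‖G.v w‖ ≤ 3 * (|B| * G.R u) + 10 * G.cs w := by
    rw [Prod.norm_def, max_le_iff]
    exact ⟨x1.trans (by linarith), x2⟩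
  have x4 := hM' ((w.1 : ℝ) / U.nrm w, (w.2 : ℝ) / U.nrm w)
  rw [U.norm_pos' f1] at x4
  have x5 := norm_sub_norm_le (G.R (U.nrm w) • Λ ((w.1 : ℝ) / U.nrm w, (w.2 : ℝ) / U.nrm w)) (G.v w)
  rw [norm_sub_rev, norm_smul, Real.norm_eq_abs, abs_of_pos f2] at x5
  have r := U.ratio_le hA1 hn
  have s1 : |B| * G.R u ≤ |B| * ((1 / (A : ℝ) + ε) * G.R (U.nrm w)) :=
    mul_le_mul_of_nonneg_left (f5.trans (by gcongr)) (abs_nonneg B)
  have s2 : ‖Λ ((w.1 : ℝ) / U.nrm w, (w.2 : ℝ) / U.nrm w)‖ ≤ 3 * |B| * (1 / (A : ℝ) + ε) + 11 * ε :=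
    le_of_mul_le_mul_right (by linarith) f2
  have s3 : M * (3 * |B| + 11) * ε = 1 / 4 := by
    rw [hεd]
    field_simp
  have s4 := mul_le_mul_of_nonneg_left s2 hM.le
  linarith

theorem mem_lns (hG : G.Ax k C) (hΛ : LamOK Λ) (hL : G.Lin Λ) (i : Fin 3) (ρ : ℝ) (l : Lb) :
    l ∈ G.lns i ρ ↔ G.Ln i l ∧ |G.s l| ≤ ρ := by
  have hf : {l | G.Ln i l ∧ |G.s l| ≤ ρ}.Finite := by
    obtain ⟨δ, hδ, h⟩ := vis_small hΛ
    obtain ⟨u, h1, h2⟩ := ((h hG hL).and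
      (((U.R_atTop hG).const_mul_atTop hδ).eventually_ge_atTop ρ)).exists
    refine (U.finite_valid G u).subset fun l hl => ⟨hl.1.1.1, ?_⟩
    have h3 := h1 l hl.1.1.1 (hl.2.trans h2)
    have h4 := at'_self hG hl.1.1
    rw [hl.1.2] at h4
    rwa [rep, h4] at h3
  unfold lns
  rw [dif_pos hf, Set.Finite.mem_toFinset]
  rfl

theorem mult_fin (hG : G.Ax k C) (hΛ : LamOK Λ) (hL : G.Lin Λ) {l : Lb} (hl : G.valid l) :
    ∃ M, G.MultLE l M := by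
  have _ := hl
  refine ⟨(G.lns (G.fam l) |G.s l|).card, fun S h1 h2 => ?_⟩
  refine card_le_card_of_injOn G.rep (fun a ha => ?_) fun a ha b hb hab => ?_
  · obtain ⟨a1, a2, -, a4⟩ := h1 a ha
    obtain ⟨c1, c2, c3⟩ := at'_spec hG a1 0
    rw [mem_coe, mem_lns hG hΛ hL]
    refine ⟨⟨a2 ▸ c1, a2 ▸ c3⟩, le_of_eq ?_⟩
    rw [← a4, hG.same_s a _ a1 c1.1 c2]
    rfl
  · exact h2 a ha b hb ((rep_eq_iff hG (h1 a ha).1 (h1 b hb).1).1 hab)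

end Gal

end ECub
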